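import Pool.Agent.Helper6.GP.Goals
import Pool.Agent.Helper60.AK.LZ

/-! Packet LZW of project GP. -/

namespace Pool.Agent.Helper6.GP

open Matrix Equiv Filter Topology Pool.Agent.Helper15.An
open Pool.Agent.Helper3.AK (lazyLaw)

variable {n k : ℕ}

theorem wop_shift {D : ℕ} (ρ : Perm (Fin n) →* Matrix (Fin D) (Fin D) ℂ) (κ : Perm (Fin n) → ℝ)
    (z : Perm (Fin n)) : ∑ g, κ (g * z) • ρ g = wop ρ κ * ρ z⁻¹ := by
  unfold wop
  rw [Finset.sum_mul, ← Equiv.sum_comp (Equiv.mulRight z⁻¹) (fun g => κ (g * z) • ρ g)]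
  refine Finset.sum_congr rfl fun g _ => ?_
  simp only [Equiv.coe_mulRight, inv_mul_cancel_right, map_mul, smul_mul_assoc]

theorem wop_lazy_succ {D : ℕ} (ρ : Perm (Fin n) →* Matrix (Fin D) (Fin D) ℂ)
    (hu : ∀ g, (ρ g)ᴴ * ρ g = 1) (z : Fin k → Alt n) (t : ℕ) :
    wop ρ (lazyLaw z (t + 1)) = wop ρ (lazyLaw z t) *
      ((1 / 2 : ℝ) • ((1 : Matrix (Fin D) (Fin D) ℂ) + wop ρ (tupW z))) := by
  have hinv : ∀ g : Perm (Fin n), ρ g⁻¹ = (ρ g)ᴴ := by
    intro g
    have h1 : ρ g⁻¹ * ρ g = 1 := by rw [← map_mul, inv_mul_cancel, map_one]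
    have h2 : ρ g * ρ g⁻¹ = 1 := by rw [← map_mul, mul_inv_cancel, map_one]
    calc ρ g⁻¹ = (ρ g)ᴴ * ρ g * ρ g⁻¹ := by rw [hu, one_mul]
      _ = (ρ g)ᴴ := by rw [mul_assoc, h2, mul_one]
  have h1 : wop ρ (lazyLaw z (t + 1)) = (1 / 2 : ℝ) • wop ρ (lazyLaw z t) +
      (4 * (k : ℝ))⁻¹ • ∑ i, (wop ρ (lazyLaw z t) * ρ (z i : Perm (Fin n)) +
        wop ρ (lazyLaw z t) * (ρ (z i : Perm (Fin n)))ᴴ) := by
    have h2 : ∀ i, wop ρ (lazyLaw z t) * ρ (z i : Perm (Fin n)) +
        wop ρ (lazyLaw z t) * (ρ (z i : Perm (Fin n)))ᴴ =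
        ∑ g, (lazyLaw z t (g * (z i : Perm (Fin n))⁻¹) +
          lazyLaw z t (g * (z i : Perm (Fin n)))) • ρ g := by
      intro i
      have h3 := wop_shift ρ (lazyLaw z t) (z i : Perm (Fin n))⁻¹
      have h4 := wop_shift ρ (lazyLaw z t) (z i : Perm (Fin n))
      rw [inv_inv] at h3
      rw [hinv] at h4
      rw [← h3, ← h4, ← Finset.sum_add_distrib]
      refine Finset.sum_congr rfl fun g _ => ?_
      rw [add_smul]
    simp_rw [h2]
    rw [Finset.sum_comm]
    unfold wop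
    rw [Finset.smul_sum, Finset.smul_sum, ← Finset.sum_add_distrib]
    refine Finset.sum_congr rfl fun g _ => ?_
    have h5 : lazyLaw z (t + 1) g = (1 / 2) * lazyLaw z t g + (4 * (k : ℝ))⁻¹ *
      ∑ i, (lazyLaw z t (g * (z i : Perm (Fin n))⁻¹) + lazyLaw z t (g * (z i : Perm (Fin n)))) := rfl
    rw [h5, add_smul, mul_smul, mul_smul, Finset.sum_smul]
  rw [h1, wop_tupW ρ hu z]
  unfold avgRe
  rw [mul_smul_comm, mul_add, mul_one, smul_add, mul_smul_comm, smul_smul, Finset.mul_sum]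
  congr 1
  have h6 : (1 / 2 : ℝ) * (2 * (k : ℝ))⁻¹ = (4 * (k : ℝ))⁻¹ := by
    rw [show (4 : ℝ) * k = 2 * (2 * k) by ring, mul_inv (2 : ℝ) (2 * (k : ℝ))]
    norm_num
  rw [h6]
  congr 1
  refine Finset.sum_congr rfl fun i _ => ?_
  rw [mul_add]

theorem lazy_support (z : Fin k → Alt n) (t : ℕ) :
    ∀ g : Perm (Fin n), g ∉ Alt n → lazyLaw z t g = 0 := by
  induction t with
  | zero =>
    intro g hg
    have h1 : lazyLaw z 0 g = if g = 1 then 1 else 0 := rfl
    rw [h1, if_neg]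
    rintro rfl
    exact hg (Subgroup.one_mem _)
  | succ t ih =>
    intro g hg
    have h5 : lazyLaw z (t + 1) g = (1 / 2) * lazyLaw z t g + (4 * (k : ℝ))⁻¹ *
      ∑ i, (lazyLaw z t (g * (z i : Perm (Fin n))⁻¹) + lazyLaw z t (g * (z i : Perm (Fin n)))) := rfl
    rw [h5, ih g hg, Finset.sum_eq_zero, mul_zero, mul_zero, add_zero]
    intro i _
    rw [ih, ih, add_zero]
    · intro h
      exact hg (((Alt n).mul_mem_cancel_right (z i).2).1 h)
    · intro h
      exact hg (((Alt n).mul_mem_cancel_right ((Alt n).inv_mem (z i).2)).1 h)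

theorem lazy_action (z : Fin k → Alt n) (t : ℕ) (hk : 1 ≤ k) : ∀ (f : Alt n → ℝ) (y : Alt n),
    (Pool.Agent.Helper6.T5.lwalk z)^[t] f y =
      ∑ g : Alt n, lazyLaw z t (g : Perm (Fin n)) * f (y * g) := by
  induction t with
  | zero =>
    intro f y
    have h1 : ∀ g : Alt n, lazyLaw z 0 (g : Perm (Fin n)) = if g = 1 then 1 else 0 := by
      intro g
      have h2 : lazyLaw z 0 (g : Perm (Fin n)) = if (g : Perm (Fin n)) = 1 then 1 else 0 := rfl
      rw [h2]
      simp only [OneMemClass.coe_eq_one]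
    simp [h1]
  | succ t ih =>
    intro f y
    rw [Function.iterate_succ_apply, ih]
    have hR : ∑ g : Alt n, lazyLaw z (t + 1) (g : Perm (Fin n)) * f (y * g) =
        (1 / 2) * ∑ g : Alt n, lazyLaw z t (g : Perm (Fin n)) * f (y * g) + (4 * (k : ℝ))⁻¹ *
        ∑ i, ∑ g : Alt n, (lazyLaw z t (((g * (z i)⁻¹ : Alt n) : Perm (Fin n))) * f (y * g) +
          lazyLaw z t (((g * z i : Alt n) : Perm (Fin n))) * f (y * g)) := by
      rw [Finset.sum_comm, Finset.mul_sum, Finset.mul_sum, ← Finset.sum_add_distrib]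
      refine Finset.sum_congr rfl fun g _ => ?_
      have h5 : lazyLaw z (t + 1) (g : Perm (Fin n)) = (1 / 2) * lazyLaw z t (g : Perm (Fin n)) +
        (4 * (k : ℝ))⁻¹ * ∑ i, (lazyLaw z t ((g : Perm (Fin n)) * (z i : Perm (Fin n))⁻¹) +
          lazyLaw z t ((g : Perm (Fin n)) * (z i : Perm (Fin n)))) := rfl
      rw [h5, add_mul, mul_assoc, mul_assoc, Finset.sum_mul]
      congr 2
      refine Finset.sum_congr rfl fun i _ => ?_
      rw [add_mul]
      rfl
    rw [hR]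
    have hL : ∀ g : Alt n, lazyLaw z t (g : Perm (Fin n)) *
        Pool.Agent.Helper6.T5.lwalk z f (y * g) =
        (1 / 2) * (lazyLaw z t (g : Perm (Fin n)) * f (y * g)) + (4 * (k : ℝ))⁻¹ *
        ∑ i, (lazyLaw z t (g : Perm (Fin n)) * f (y * g * z i) +
          lazyLaw z t (g : Perm (Fin n)) * f (y * g * (z i)⁻¹)) := by
      intro g
      unfold Pool.Agent.Helper6.T5.lwalk Pool.Agent.Helper6.FixK.walk
      have h6 : ∑ i, (lazyLaw z t (g : Perm (Fin n)) * f (y * g * z i) +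
          lazyLaw z t (g : Perm (Fin n)) * f (y * g * (z i)⁻¹)) =
          lazyLaw z t (g : Perm (Fin n)) * ∑ i, (f (y * g * z i) + f (y * g * (z i)⁻¹)) := by
        rw [Finset.mul_sum]
        refine Finset.sum_congr rfl fun i _ => by ring
      have hk' : (k : ℝ) ≠ 0 := by
        have : k ≠ 0 := by omega
        exact_mod_cast this
      rw [h6]
      field_simp
      ring
    simp_rw [hL]
    rw [Finset.sum_add_distrib, ← Finset.mul_sum, ← Finset.mul_sum]
    congr 1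
    congr 1
    rw [Finset.sum_comm]
    refine Finset.sum_congr rfl fun i _ => ?_
    rw [Finset.sum_add_distrib, Finset.sum_add_distrib]
    congr 1
    · rw [← Equiv.sum_comp (Equiv.mulRight (z i))
        (fun g : Alt n => lazyLaw z t (((g * (z i)⁻¹ : Alt n) : Perm (Fin n))) * f (y * g))]
      refine Finset.sum_congr rfl fun g _ => ?_
      simp [mul_assoc]
    · rw [← Equiv.sum_comp (Equiv.mulRight (z i)⁻¹)
        (fun g : Alt n => lazyLaw z t (((g * z i : Alt n) : Perm (Fin n))) * f (y * g))]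
      refine Finset.sum_congr rfl fun g _ => ?_
      simp [mul_assoc]

theorem lzw_all : S_LZW := by
  intro n k t z hk
  refine ⟨fun D ρ hu => ?_, lazy_support z t, lazy_action z t hk,
    Pool.Agent.Helper60.AK.LZ.lazy_nonneg z t, Pool.Agent.Helper60.AK.LZ.lazy_sum z t hk⟩
  induction t with
  | zero =>
    rw [pow_zero]
    unfold wop
    have h1 : ∀ g, lazyLaw z 0 g = if g = 1 then 1 else 0 := fun g => rfl
    simp [h1]
  | succ t ih => rw [wop_lazy_succ ρ hu, ih, pow_succ]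

end Pool.Agent.Helper6.GP
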