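import Pool.Agent.Helper6.GP.Goals
import Pool.Agent.Helper61.GP.ENT

/-! Gap for the functions of small support on `A_n`: if `x` has gap `ε` on the `R`-tuples, then
every function `f` on `A_n` with small support has `⟨L f, f⟩ ^ T ≤ …`, `L` the lazy walk. -/

namespace Pool.Agent.Helper6.GP

open Matrix Equiv Filter Topology Pool.Agent.Helper15.An Pool.Agent.Helper6.FixK
  Pool.Agent.Helper6.T5
open Pool.Agent.Helper3.AK (lazyLaw)

variable {n k : ℕ}

theorem walk_symm (z : Fin k → Alt n) (f h : Alt n → ℝ) :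
    ∑ g, walk z f g * h g = ∑ g, f g * walk z h g := by
  unfold walk
  simp_rw [mul_assoc, Finset.sum_mul, Finset.mul_sum]
  rw [Finset.sum_comm]
  rw [Finset.sum_comm (s := Finset.univ) (t := Finset.univ)
    (f := fun g i => f g * ((2 * (k : ℝ))⁻¹ * (h (g * z i) + h (g * (z i)⁻¹))))]
  refine Finset.sum_congr rfl fun i _ => ?_
  have h1 : ∑ g, f (g * z i) * h g = ∑ g, f g * h (g * (z i)⁻¹) := by
    rw [← Equiv.sum_comp (Equiv.mulRight (z i)⁻¹) (fun g => f (g * z i) * h g)]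
    refine Finset.sum_congr rfl fun g _ => ?_
    simp [mul_assoc]
  have h2 : ∑ g, f (g * (z i)⁻¹) * h g = ∑ g, f g * h (g * z i) := by
    rw [← Equiv.sum_comp (Equiv.mulRight (z i)) (fun g => f (g * (z i)⁻¹) * h g)]
    refine Finset.sum_congr rfl fun g _ => ?_
    simp [mul_assoc]
  calc ∑ g, (2 * (k : ℝ))⁻¹ * ((f (g * z i) + f (g * (z i)⁻¹)) * h g)
      = (2 * (k : ℝ))⁻¹ * (∑ g, f (g * z i) * h g + ∑ g, f (g * (z i)⁻¹) * h g) := by
        rw [← Finset.sum_add_distrib, Finset.mul_sum]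
        refine Finset.sum_congr rfl fun g _ => by ring
    _ = (2 * (k : ℝ))⁻¹ * (∑ g, f g * h (g * (z i)⁻¹) + ∑ g, f g * h (g * z i)) := by
        rw [h1, h2]
    _ = _ := by
        rw [← Finset.sum_add_distrib, Finset.mul_sum]
        refine Finset.sum_congr rfl fun g _ => by ring

theorem lwalk_symm (z : Fin k → Alt n) (f h : Alt n → ℝ) :
    ∑ g, lwalk z f g * h g = ∑ g, f g * lwalk z h g := by
  unfold lwalk
  have h1 : ∀ g, 1 / 2 * (f g + walk z f g) * h g = 1 / 2 * (f g * h g) +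
      1 / 2 * (walk z f g * h g) := fun g => by ring
  have h2 : ∀ g, f g * (1 / 2 * (h g + walk z h g)) = 1 / 2 * (f g * h g) +
      1 / 2 * (f g * walk z h g) := fun g => by ring
  simp_rw [h1, h2, Finset.sum_add_distrib, ← Finset.mul_sum]
  rw [walk_symm]

theorem lwalk_iter_symm (z : Fin k → Alt n) (t : ℕ) (f h : Alt n → ℝ) :
    ∑ g, (lwalk z)^[t] f g * h g = ∑ g, f g * (lwalk z)^[t] h g := by
  induction t generalizing f h with
  | zero => rfl
  | succ t ih =>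
    rw [Function.iterate_succ_apply, ih, lwalk_symm, ← Function.iterate_succ_apply' (lwalk z)]

/-- `⟨f, L ^ t f⟩ ^ 2 ≤ ⟨f, f⟩ ⟨f, L ^ (2 t) f⟩` -/
theorem moment_double (z : Fin k → Alt n) (t : ℕ) (f : Alt n → ℝ) :
    (∑ g, f g * (lwalk z)^[t] f g) ^ 2 ≤
      (∑ g, f g ^ 2) * ∑ g, f g * (lwalk z)^[t + t] f g := by
  have h1 := Finset.sum_mul_sq_le_sq_mul_sq Finset.univ f ((lwalk z)^[t] f)
  have h2 : ∑ g, ((lwalk z)^[t] f g) ^ 2 = ∑ g, f g * (lwalk z)^[t + t] f g := by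
    rw [Function.iterate_add_apply, ← lwalk_iter_symm]
    refine Finset.sum_congr rfl fun g _ => by ring
  rwa [h2] at h1

theorem moment_pow (z : Fin k → Alt n) (s : ℕ) (f : Alt n → ℝ)
    (h0 : 0 ≤ ∑ g, f g * lwalk z f g) :
    (∑ g, f g * lwalk z f g) ^ 2 ^ s ≤
      (∑ g, f g ^ 2) ^ (2 ^ s - 1) * ∑ g, f g * (lwalk z)^[2 ^ s] f g := by
  induction s with
  | zero => simp
  | succ s ih =>
    have hF : 0 ≤ ∑ g, f g ^ 2 := Finset.sum_nonneg fun _ _ => sq_nonneg _
    have h1 := pow_le_pow_left₀ (pow_nonneg h0 _) ih 2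
    have h2 := moment_double z (2 ^ s) f
    have h3 : 2 ^ (s + 1) - 1 = (2 ^ s - 1) * 2 + 1 := by
      have : 1 ≤ 2 ^ s := Nat.one_le_two_pow
      rw [pow_succ]; omega
    have h4 : (2 : ℕ) ^ (s + 1) = 2 ^ s + 2 ^ s := by rw [pow_succ]; ring
    calc (∑ g, f g * lwalk z f g) ^ 2 ^ (s + 1)
        = ((∑ g, f g * lwalk z f g) ^ 2 ^ s) ^ 2 := by rw [← pow_mul, pow_succ]
      _ ≤ ((∑ g, f g ^ 2) ^ (2 ^ s - 1) * ∑ g, f g * (lwalk z)^[2 ^ s] f g) ^ 2 := h1
      _ = (∑ g, f g ^ 2) ^ ((2 ^ s - 1) * 2) * (∑ g, f g * (lwalk z)^[2 ^ s] f g) ^ 2 := by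
          rw [mul_pow, ← pow_mul]
      _ ≤ (∑ g, f g ^ 2) ^ ((2 ^ s - 1) * 2) *
          ((∑ g, f g ^ 2) * ∑ g, f g * (lwalk z)^[2 ^ s + 2 ^ s] f g) :=
          mul_le_mul_of_nonneg_left h2 (pow_nonneg hF _)
      _ = _ := by rw [h3, h4, pow_succ]; ring

/-- an upper bound for the point masses of the lazy law -/
theorem point_mass (hk : 1 ≤ k) {R t : ℕ} (hR : R ≤ n) (z : Fin k → Alt n) {ε : ℝ} (hε : 0 < ε)
    (hε1 : ε ≤ 1) (hgap : Pool.Agent.Helper3.AK.TupleGap z R ε) (g : Perm (Fin n)) :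
    lazyLaw z t g ≤ 1 / (n.descFactorial R : ℝ) + (1 - ε / 2) ^ t := by
  have h1 := Pool.Agent.Helper61.GP.thm n k R t z ε hk hR hε hε1 hgap (Fin.castLEEmb hR)
    ((Fin.castLEEmb hR).trans g.toEmbedding)
  have h2 : lazyLaw z t g ≤ ∑ h ∈ Finset.univ.filter (fun h : Perm (Fin n) =>
      ∀ i, h (Fin.castLEEmb hR i) = (Fin.castLEEmb hR).trans g.toEmbedding i), lazyLaw z t h := by
    refine Finset.single_le_sum (f := fun h => lazyLaw z t h)
      (fun h _ => (Pool.Agent.Helper60.AK.LZ.lz n k R t z hk).2.1 h) ?_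
    rw [Finset.mem_filter]
    exact ⟨Finset.mem_univ _, fun i => rfl⟩
  have h3 := (abs_le.1 h1).2
  linarith

/-- the moment bound for a function of small support -/
theorem moment_small (hlzw : S_LZW) (hk : 1 ≤ k) (t : ℕ) (z : Fin k → Alt n) (f : Alt n → ℝ)
    {m : ℝ} (hm : ∀ g, lazyLaw z t g ≤ m) (hm0 : 0 ≤ m) :
    ∑ g, f g * (lwalk z)^[t] f g ≤
      m * (Finset.univ.filter fun g => f g ≠ 0).card * ∑ g, f g ^ 2 := by
  classical
  have h1 : ∀ y, (lwalk z)^[t] f y = ∑ g : Alt n, lazyLaw z t (g : Perm (Fin n)) * f (y * g) :=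
    (hlzw n k t z hk).2.2.1 f
  have hnn : ∀ g, 0 ≤ lazyLaw z t g := (hlzw n k t z hk).2.2.2.1
  have h2 : ∑ g, f g * (lwalk z)^[t] f g ≤ m * (∑ g, |f g|) ^ 2 := by
    calc ∑ y, f y * (lwalk z)^[t] f y = ∑ y, ∑ g : Alt n,
          lazyLaw z t (g : Perm (Fin n)) * (f y * f (y * g)) := by
          refine Finset.sum_congr rfl fun y _ => ?_
          rw [h1, Finset.mul_sum]
          refine Finset.sum_congr rfl fun g _ => by ring
      _ ≤ ∑ y, ∑ g : Alt n, m * (|f y| * |f (y * g)|) := by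
          refine Finset.sum_le_sum fun y _ => Finset.sum_le_sum fun g _ => ?_
          calc lazyLaw z t (g : Perm (Fin n)) * (f y * f (y * g))
              ≤ lazyLaw z t (g : Perm (Fin n)) * |f y * f (y * g)| :=
                mul_le_mul_of_nonneg_left (le_abs_self _) (hnn _)
            _ ≤ m * |f y * f (y * g)| :=
                mul_le_mul_of_nonneg_right (hm _) (abs_nonneg _)
            _ = m * (|f y| * |f (y * g)|) := by rw [abs_mul]
      _ = m * (∑ g, |f g|) ^ 2 := by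
          rw [sq, Finset.sum_mul, Finset.mul_sum]
          refine Finset.sum_congr rfl fun y _ => ?_
          rw [← Finset.mul_sum, ← Finset.mul_sum]
          congr 2
          exact Equiv.sum_comp (Equiv.mulLeft y) (fun g => |f g|)
  have h3 : (∑ g, |f g|) ^ 2 ≤ (Finset.univ.filter fun g => f g ≠ 0).card * ∑ g, f g ^ 2 := by
    have h4 : ∑ g, |f g| = ∑ g ∈ Finset.univ.filter (fun g => f g ≠ 0), |f g| := by
      rw [Finset.sum_filter]
      refine Finset.sum_congr rfl fun g _ => ?_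
      split_ifs with h
      · rfl
      · push Not at h
        rw [h, abs_zero]
    have h5 := sq_sum_le_card_mul_sum_sq (s := Finset.univ.filter (fun g => f g ≠ 0))
      (f := fun g => |f g|)
    rw [h4]
    refine h5.trans ?_
    refine mul_le_mul_of_nonneg_left ?_ (Nat.cast_nonneg _)
    simp_rw [sq_abs]
    exact Finset.sum_le_sum_of_subset_of_nonneg (Finset.filter_subset _ _)
      fun _ _ _ => sq_nonneg _
  refine h2.trans ?_
  rw [mul_assoc]
  exact mul_le_mul_of_nonneg_left h3 hm0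

end Pool.Agent.Helper6.GP
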