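import Pool.Agent.Helper6.FixK.Rayleigh

/-! Gap on the functions of small support: the definition. -/

namespace Pool.Agent.Helper6.GP

open Matrix Equiv Filter Topology Pool.Agent.Helper15.An Pool.Agent.Helper6.FixK

variable {n k : ℕ}

/-- gap on the functions on `A_n` with at most `A` nonzero values -/
def SmallSupp (x : Fin k → Alt n) (A ε : ℝ) : Prop :=
  ∀ f : Alt n → ℝ, (Nat.card {g : Alt n // f g ≠ 0} : ℝ) ≤ A →
    ∑ g, f g * walk x f g ≤ (1 - ε) * ∑ g, f g ^ 2

end Pool.Agent.Helper6.GP
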