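import Pool.Agent.Helper6.GP.SmallFin
import Pool.Agent.Helper3.AK.Final
import Pool.Agent.Helper6.GP.SmallSupp

/-! Gap for the functions of small support: the statement with probabilities, for every `k ≥ 2`. -/

namespace Pool.Agent.Helper6.GP

open Matrix Equiv Filter Topology Pool.Agent.Helper15.An Pool.Agent.Helper6.FixK
  Pool.Agent.Helper6.T5
open Pool.Agent.Helper3.AK (lazyLaw)

variable {n k : ℕ}

/-- gap on tuples, on the functions of `r` coordinates and on the functions of small support -/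
def EUS (k : ℕ) (α ε : ℝ) : Prop :=
  Tendsto (fun n : ℕ => (Nat.card {x : Fin k → Alt n // (∀ r : ℕ, (r : ℝ) ≤ (n : ℝ) ^ α →
    GroupGap x r ε ∧ TupleGap x r ε) ∧ SmallSupp x (Real.exp ((n : ℝ) ^ α)) ε} : ℝ) /
    Nat.card (Fin k → Alt n)) atTop (𝓝 1)

theorem ev_small {α β : ℝ} (hβ : 0 < β) (hαβ : α < β) (hβ1 : β < 1) : ∀ᶠ n : ℕ in atTop,
    4 ≤ n ∧ 1 ≤ Real.log n ∧ 1 ≤ ⌊(n : ℝ) ^ β⌋₊ ∧ 2 * ⌊(n : ℝ) ^ β⌋₊ ≤ n ∧
      8 * (Real.log 2 + (n : ℝ) ^ α) ≤ 2 * (⌊(n : ℝ) ^ β⌋₊ * Real.log n) := by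
  have h1 : Tendsto (fun n : ℕ => (n : ℝ) ^ β) atTop atTop :=
    (tendsto_rpow_atTop hβ).comp tendsto_natCast_atTop_atTop
  have h2 : Tendsto (fun n : ℕ => (n : ℝ) ^ (1 - β)) atTop atTop :=
    (tendsto_rpow_atTop (by linarith)).comp tendsto_natCast_atTop_atTop
  have h3 : Tendsto (fun n : ℕ => (n : ℝ) ^ (β - α)) atTop atTop :=
    (tendsto_rpow_atTop (by linarith)).comp tendsto_natCast_atTop_atTop
  filter_upwards [h1.eventually_ge_atTop 16, h2.eventually_ge_atTop 2, h3.eventually_ge_atTop 16,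
    eventually_ge_atTop 4, Pool.Agent.Helper6.W.tendsto_log_nat.eventually_ge_atTop 1]
    with n a1 a2 a3 a4 a5
  have hn0 : (0 : ℝ) < n := by
    have : 0 < n := by omega
    exact_mod_cast this
  have hfl : (⌊(n : ℝ) ^ β⌋₊ : ℝ) ≤ (n : ℝ) ^ β := Nat.floor_le (by positivity)
  have hfl2 : (n : ℝ) ^ β < ⌊(n : ℝ) ^ β⌋₊ + 1 := Nat.lt_floor_add_one _
  refine ⟨a4, a5, ?_, ?_, ?_⟩
  · exact Nat.le_floor (by push_cast; linarith)
  · have h4 : (n : ℝ) ^ β * 2 ≤ n := by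
      calc (n : ℝ) ^ β * 2 ≤ (n : ℝ) ^ β * (n : ℝ) ^ (1 - β) := by gcongr
        _ = n := by rw [← Real.rpow_add hn0]; simp
    have h5 : (2 * ⌊(n : ℝ) ^ β⌋₊ : ℝ) ≤ n := by linarith
    exact_mod_cast h5
  · have h4 : (n : ℝ) ^ α * 16 ≤ (n : ℝ) ^ β := by
      calc (n : ℝ) ^ α * 16 ≤ (n : ℝ) ^ α * (n : ℝ) ^ (β - α) := by gcongr
        _ = (n : ℝ) ^ β := by rw [← Real.rpow_add hn0]; congr 1; ring
    have h5 : Real.log 2 ≤ 1 := by
      have := Real.log_two_lt_d9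
      linarith
    have h6 : (⌊(n : ℝ) ^ β⌋₊ : ℝ) ≤ ⌊(n : ℝ) ^ β⌋₊ * Real.log n :=
      le_mul_of_one_le_right (Nat.cast_nonneg _) a5
    have h7 : 0 ≤ (n : ℝ) ^ α := by positivity
    nlinarith

theorem eus_of_eut (hlzw : S_LZW) {k : ℕ} (hk : 1 ≤ k) {α β ε : ℝ} (hβ : 0 < β) (hαβ : α < β)
    (hβ1 : β < 1) (hε : 0 < ε) (h : Pool.Agent.Helper3.AK.EUT k β ε) :
    EUS k α (min ε 1 / 40) := by
  unfold Pool.Agent.Helper3.AK.EUT at h
  unfold EUS
  refine tendsto_of_tendsto_of_tendsto_of_le_of_le' h tendsto_const_nhds ?_ ?_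
  · filter_upwards [ev_small hβ hαβ hβ1] with n hn
    obtain ⟨a1, a2, a3, a4, a5⟩ := hn
    refine div_le_div_of_nonneg_right ?_ (Nat.cast_nonneg _)
    have hn1 : (1 : ℝ) ≤ n := by
      have : 1 ≤ n := by omega
      exact_mod_cast this
    have hm : 0 < min ε 1 := lt_min hε one_pos
    have hm1 : min ε 1 / 40 ≤ ε := by
      have := min_le_left ε 1
      linarith
    refine Nat.cast_le.2 (Nat.card_le_card_of_injective (fun x => ⟨x.1, ?_, ?_⟩) ?_)
    · intro r hr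
      have h1 := x.2 r (hr.trans (Real.rpow_le_rpow_of_exponent_le hn1 hαβ.le))
      exact ⟨Pool.Agent.Helper3.AK.GroupGap.mono_eps hm1 h1.1,
        Pool.Agent.Helper3.AK.TupleGap.mono_eps hm1 h1.2⟩
    · intro f hf
      have h1 := (x.2 ⌊(n : ℝ) ^ β⌋₊ (Nat.floor_le (by positivity))).2
      have h2 := Pool.Agent.Helper3.AK.TupleGap.mono_eps (min_le_left ε 1) h1
      refine small_det hlzw hk a3 a4 a1 x.1 hm (min_le_right _ _) h2 a2 f (le_trans ?_ a5)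
      have h3 : ((Finset.univ.filter fun g => f g ≠ 0).card : ℝ) =
          (Nat.card {g : Alt n // f g ≠ 0} : ℝ) := by
        rw [Nat.card_eq_fintype_card, Fintype.card_subtype]
      rw [h3]
      rcases Nat.eq_zero_or_pos (Nat.card {g : Alt n // f g ≠ 0}) with h4 | h4
      · rw [h4]
        simp only [Nat.cast_zero, mul_zero, Real.log_zero]
        have : 0 ≤ (n : ℝ) ^ α := by positivity
        have := Real.log_nonneg (show (1 : ℝ) ≤ 2 by norm_num)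
        positivity
      · have h5 : (0 : ℝ) < (Nat.card {g : Alt n // f g ≠ 0} : ℝ) := by exact_mod_cast h4
        rw [Real.log_mul (by norm_num) h5.ne']
        have h6 : Real.log (Nat.card {g : Alt n // f g ≠ 0} : ℝ) ≤ (n : ℝ) ^ α := by
          rw [Real.log_le_iff_le_exp h5]
          exact hf
        linarith
    · intro a b hab
      exact Subtype.ext (by simpa using congrArg Subtype.val hab)
  · filter_upwards with n
    apply div_le_one_of_le₀ _ (Nat.cast_nonneg _)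
    exact_mod_cast Nat.card_le_card_of_injective _ Subtype.val_injective

theorem alpha_mono {j k : ℕ} (h : j ≤ k) :
    (1 : ℝ) - 2 / 3 / 2 ^ (j - 2) ≤ 1 - 2 / 3 / 2 ^ (k - 2) := by
  have h1 : (2 : ℝ) ^ (j - 2) ≤ 2 ^ (k - 2) := pow_le_pow_right₀ (by norm_num) (by omega)
  have h2 : (2 : ℝ) / 3 / 2 ^ (k - 2) ≤ 2 / 3 / 2 ^ (j - 2) := by
    apply div_le_div_of_nonneg_left (by norm_num) (by positivity) h1
  linarith

/-- for every `α < 1` one constant for all `k ≥ 2` with `α < α_k` -/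
theorem small_uniform (hlzw : S_LZW) (α : ℝ) (hα : α < 1) : ∃ ε : ℝ, 0 < ε ∧ ∀ k : ℕ, 2 ≤ k →
    α < 1 - 2 / 3 / 2 ^ (k - 2) → EUS k α ε := by
  by_cases hex : ∃ k : ℕ, 2 ≤ k ∧ α < 1 - 2 / 3 / 2 ^ (k - 2)
  · set k₀ := Nat.find hex with hk₀
    obtain ⟨h2, h3⟩ := Nat.find_spec hex
    have h4 : (1 : ℝ) / 3 ≤ 1 - 2 / 3 / 2 ^ (k₀ - 2) := by
      have := alpha_mono (j := 2) (k := k₀) (by rw [hk₀]; exact h2)
      norm_num at this
      linarith
    have h5 : (1 : ℝ) - 2 / 3 / 2 ^ (k₀ - 2) < 1 := by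
      have : (0 : ℝ) < 2 / 3 / 2 ^ (k₀ - 2) := by positivity
      linarith
    set β : ℝ := (max α 0 + (1 - 2 / 3 / 2 ^ (k₀ - 2))) / 2 with hβ
    have hmax : max α 0 < 1 - 2 / 3 / 2 ^ (k₀ - 2) := max_lt h3 (by linarith)
    have hm0 : 0 ≤ max α 0 := le_max_right _ _
    have hβ0 : 0 < β := by rw [hβ]; linarith
    have hαβ : α < β := by
      have := le_max_left α 0
      rw [hβ]; linarith
    have hβk : β < 1 - 2 / 3 / 2 ^ (k₀ - 2) := by rw [hβ]; linarith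
    obtain ⟨ε, hε, h6⟩ := Pool.Agent.Helper3.AK.main_uniform β (by linarith)
    refine ⟨min ε 1 / 40, by have := lt_min hε one_pos; positivity, fun k hk hk' => ?_⟩
    refine eus_of_eut hlzw (by omega) hβ0 hαβ (by linarith) hε (h6 k hk ?_)
    have h7 : k₀ ≤ k := Nat.find_min' hex ⟨hk, hk'⟩
    linarith [alpha_mono h7]
  · push Not at hex
    exact ⟨1, one_pos, fun k hk hk' => absurd (hex k hk) (not_le.2 hk')⟩

end Pool.Agent.Helper6.GP
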