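import Pool.Agent.Helper6.GP.Goals
import Pool.Agent.Helper6.AK.Assembly

/-! Project GP: the gap on all of `A_n` for every number `k ≥ 3` of generators, from `S_FING`. -/

namespace Pool.Agent.Helper6.GP

open Matrix Equiv Filter Topology Pool.Agent.Helper15.An
open scoped ComplexOrder

variable {n k : ℕ}

theorem good_anti {F : PW (Perm (Fin n))} {μ : Perm (Fin n) → ℝ} {p : ℕ} {ε ε' : ℝ}
    (h : ε' ≤ ε) (hg : Good F μ p ε) : Good F μ p ε' := by
  intro i ht hf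
  have h1 := hg i ht hf
  have h2 : ((1 - ε') • (1 : Matrix (Fin (F.D i)) (Fin (F.D i)) ℂ) - wop (F.ρ i) μ) =
      ((1 - ε) • (1 : Matrix (Fin (F.D i)) (Fin (F.D i)) ℂ) - wop (F.ρ i) μ) +
        (ε - ε') • (1 : Matrix (Fin (F.D i)) (Fin (F.D i)) ℂ) := by
    have h3 : (1 - ε') = (1 - ε) + (ε - ε') := by ring
    rw [h3, add_smul]
    abel
  rw [h2]
  refine h1.add ?_
  exact (PosSemidef.one).smul (sub_nonneg.2 h)

/-- the gap on all of `A_n` for every `k ≥ 3` -/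
theorem gap_all (hf : S_FING) (k : ℕ) (hk : 3 ≤ k) (δ : ℝ) (hδ : 0 < δ) :
    Tendsto (fun n : ℕ => (Nat.card {x : Fin k → Alt n // ∀ F : PW (Perm (Fin n)),
      Good F (tupW x) n ((n : ℝ) ^ (-(1 + 2 / 3 * (1 / 2 : ℝ) ^ (k - 3) + δ)))} : ℝ) /
      Nat.card (Fin k → Alt n)) atTop (𝓝 1) := by
  obtain ⟨m, rfl⟩ : ∃ m, k = m + 1 := ⟨k - 1, by omega⟩
  have hm : 2 ≤ m := by omega
  set c : ℝ := 2 / 3 * (1 / 2 : ℝ) ^ (m - 2) with hc
  have hc0 : 0 < c := by positivity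
  have hc1 : c ≤ 2 / 3 := by
    have : ((1 : ℝ) / 2) ^ (m - 2) ≤ 1 := pow_le_one₀ (by norm_num) (by norm_num)
    rw [hc]; linarith
  set μ : ℝ := min (δ / 2) (1 / 6) with hμ
  have hμ0 : 0 < μ := lt_min (by linarith) (by norm_num)
  have hμ1 : μ ≤ δ / 2 := min_le_left _ _
  have hμ2 : μ ≤ 1 / 6 := min_le_right _ _
  have e1 : (2 : ℝ) / 3 / 2 ^ (m - 2) = c := by
    rw [hc, div_eq_mul_inv, one_div, inv_pow]
  obtain ⟨ε₀, hε₀, hw₀⟩ := Pool.Agent.Helper6.AK.allk_proved m hm (1 - c - μ) (by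
    rw [e1]; linarith)
  obtain ⟨ε, hε, hw⟩ := Pool.Agent.Helper6.AK.allk_proved (m + 1) (by omega) (3 / 5) (by
    have h1 : (2 : ℝ) / 3 / 2 ^ (m + 1 - 2) ≤ 1 / 3 := by
      have h2 : (2 : ℝ) ≤ 2 ^ (m + 1 - 2) := by
        calc (2 : ℝ) = 2 ^ 1 := (pow_one 2).symm
          _ ≤ 2 ^ (m + 1 - 2) := pow_le_pow_right₀ (by norm_num) (by omega)
      rw [div_le_iff₀ (by positivity)]
      linarith
    linarith)
  have h1 := hf m (1 - c - μ) (3 / 5) (by omega) (by linarith) (by linarith) (by norm_num)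
    (by norm_num) ⟨ε₀, hε₀, hw₀⟩ ⟨ε, hε, hw⟩ (δ / 2) (by linarith)
  refine tendsto_of_tendsto_of_tendsto_of_le_of_le' h1 tendsto_const_nhds ?_ ?_
  · filter_upwards [eventually_ge_atTop 1] with n hn
    have hn1 : (1 : ℝ) ≤ n := by exact_mod_cast hn
    refine div_le_div_of_nonneg_right ?_ (Nat.cast_nonneg _)
    refine Nat.cast_le.2 (Nat.card_le_card_of_injective
      (fun x => ⟨x.1, fun F => good_anti ?_ (x.2 F)⟩) ?_)
    · refine Real.rpow_le_rpow_of_exponent_le hn1 ?_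
      have h3 : (1 : ℝ) + 2 / 3 * (1 / 2 : ℝ) ^ (m + 1 - 3) = 1 + c := by
        rw [hc]
        have : m + 1 - 3 = m - 2 := by omega
        rw [this]
      rw [h3]
      linarith
    · intro a b hab
      exact Subtype.ext (by simpa using congrArg Subtype.val hab)
  · filter_upwards with n
    apply div_le_one_of_le₀ _ (Nat.cast_nonneg _)
    exact_mod_cast Nat.card_le_card_of_injective _ Subtype.val_injective

end Pool.Agent.Helper6.GP
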