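import Pool.Agent.Helper6.GP.Goals
import Pool.Agent.Helper6.W.Claim

/-! Packet NTR of project GP. -/

namespace Pool.Agent.Helper6.GP

open Matrix Equiv Filter Topology Pool.Agent.Helper15.An
open Pool.Agent.Helper3.AK (lazyLaw)

theorem ntr_ev {α : ℝ} (h0 : 0 < α) (h1 : α < 1) : ∀ᶠ n : ℕ in atTop,
    64 ≤ n ∧ 6 ≤ Real.log n ∧ 100 ≤ (n : ℝ) ^ α ∧ 1000 * Real.log n ≤ (n : ℝ) ^ α ∧
      40 * (n : ℝ) ^ α ≤ n := by
  have t1 : Tendsto (fun n : ℕ => (n : ℝ) ^ α) atTop atTop :=
    (tendsto_rpow_atTop h0).comp tendsto_natCast_atTop_atTop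
  have t2 : Tendsto (fun n : ℕ => (n : ℝ) ^ (1 - α)) atTop atTop :=
    (tendsto_rpow_atTop (by linarith)).comp tendsto_natCast_atTop_atTop
  have t3 : ∀ᶠ n : ℕ in atTop, 1000 * Real.log n ≤ (n : ℝ) ^ α := by
    have h2 := isLittleO_log_rpow_atTop h0
    have h3 := h2.def (show (0 : ℝ) < 1 / 1000 by norm_num)
    have h4 := tendsto_natCast_atTop_atTop (R := ℝ) |>.eventually h3
    filter_upwards [h4, eventually_ge_atTop 1] with n h5 hn
    have h6 : (1 : ℝ) ≤ n := by exact_mod_cast hn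
    rw [Real.norm_of_nonneg (Real.log_nonneg h6), Real.norm_of_nonneg (by positivity)] at h5
    linarith
  filter_upwards [eventually_ge_atTop 64,
    Pool.Agent.Helper6.W.tendsto_log_nat.eventually_ge_atTop 6, t1.eventually_ge_atTop 100, t3,
    t2.eventually_ge_atTop 40] with n a1 a2 a3 a4 a5
  refine ⟨a1, a2, a3, a4, ?_⟩
  have hn0 : (0 : ℝ) < n := by
    have : 0 < n := by omega
    exact_mod_cast this
  calc 40 * (n : ℝ) ^ α ≤ (n : ℝ) ^ (1 - α) * (n : ℝ) ^ α := by gcongr
    _ = n := by rw [← Real.rpow_add hn0]; simp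

theorem ntr (hnta : S_NTA) : S_NTR := by
  intro k α ε hk h0 h1 hε hε1
  filter_upwards [ntr_ev h0 h1] with n hn z hgap t ht F i hi
  obtain ⟨n64, hL6, hA100, hAL, hAn⟩ := hn
  set A : ℝ := (n : ℝ) ^ α with hA
  set L : ℝ := Real.log n with hL
  set R : ℕ := ⌊A⌋₊ with hR
  set J : ℕ := ⌊(R : ℝ) / (200 * L)⌋₊ with hJ
  have hn0 : (0 : ℝ) < n := by
    have : 0 < n := by omega
    exact_mod_cast this
  have hRA : (R : ℝ) ≤ A := Nat.floor_le (by linarith)
  have hRA' : A < R + 1 := Nat.lt_floor_add_one _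
  have hJR : (J : ℝ) ≤ R / (200 * L) := Nat.floor_le (by positivity)
  have hJR' : (R : ℝ) / (200 * L) < J + 1 := Nat.lt_floor_add_one _
  have hJL : (J : ℝ) * L ≤ R / 200 := by
    have h2 : (J : ℝ) * L ≤ R / (200 * L) * L := mul_le_mul_of_nonneg_right hJR (by linarith)
    have h3 : (R : ℝ) / (200 * L) * L = R / 200 := by field_simp
    linarith
  have h20 : 20 * (R + 1) ≤ n := by
    have : (20 * ((R : ℝ) + 1)) ≤ n := by nlinarith
    exact_mod_cast this
  have h20J : 20 * (12 * J + 1) ≤ n := by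
    have h2 : (J : ℝ) ≤ R / 200 := by
      have : (J : ℝ) ≤ J * L := le_mul_of_one_le_right (Nat.cast_nonneg _) (by linarith)
      linarith
    have : (20 * (12 * (J : ℝ) + 1)) ≤ n := by nlinarith
    exact_mod_cast this
  -- the power
  have hpow : (1 - ε / 2) ^ (2 * t) ≤ Real.exp (-(4 * A * L)) := by
    have h2 : (1 - ε / 2) ≤ Real.exp (-(ε / 2)) := by
      have := Real.add_one_le_exp (-(ε / 2))
      linarith
    calc (1 - ε / 2) ^ (2 * t) ≤ (Real.exp (-(ε / 2))) ^ (2 * t) :=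
          pow_le_pow_left₀ (by linarith) h2 _
      _ = Real.exp (-(ε * t)) := by
          rw [← Real.exp_nat_mul]
          congr 1
          push_cast
          ring
      _ ≤ Real.exp (-(4 * A * L)) := by
          refine Real.exp_le_exp.2 (neg_le_neg ?_)
          have h3 : ε * (4 * A * L / ε) ≤ ε * t := mul_le_mul_of_nonneg_left ht hε.le
          have h4 : ε * (4 * A * L / ε) = 4 * A * L := by field_simp
          linarith
  have hdesc : (n.descFactorial R : ℝ) ≤ Real.exp (R * L) := by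
    calc (n.descFactorial R : ℝ) ≤ (n : ℝ) ^ R := by exact_mod_cast Nat.descFactorial_le_pow n R
      _ = Real.exp (R * L) := by
          rw [Real.exp_nat_mul, hL, Real.exp_log hn0]
  have hcond : (1 - ε / 2) ^ (2 * t) * (n.descFactorial R : ℝ) ≤ 1 := by
    calc (1 - ε / 2) ^ (2 * t) * (n.descFactorial R : ℝ)
        ≤ Real.exp (-(4 * A * L)) * Real.exp (R * L) :=
          mul_le_mul hpow hdesc (Nat.cast_nonneg _) (Real.exp_pos _).le
      _ = Real.exp (-(4 * A * L) + R * L) := (Real.exp_add _ _).symm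
      _ ≤ 1 := by
          rw [Real.exp_le_one_iff]
          nlinarith
  have hmain := hnta n k t R J z ε hk hε hε1 n64 h20 h20J (hgap R hRA) hcond F i hi
  refine hmain.trans (mul_le_mul_of_nonneg_right ?_ (Nat.cast_nonneg _))
  -- four terms
  set E : ℝ := A / (1000 * L) with hE
  have hE1 : E ≤ A / 1000 := by
    rw [hE]
    exact div_le_div_of_nonneg_left (by linarith) (by norm_num) (by nlinarith)
  have hlog8 : Real.log 8 ≤ 21 / 10 := by
    have : (8 : ℝ) = 2 ^ 3 := by norm_num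
    rw [this, Real.log_pow]
    have := Real.log_two_lt_d9
    push_cast
    linarith
  have hq : ∀ y : ℝ, y ≤ -(E + Real.log 4) → Real.exp y ≤ Real.exp (-E) / 4 := by
    intro y hy
    calc Real.exp y ≤ Real.exp (-(E + Real.log 4)) := Real.exp_le_exp.2 hy
      _ = Real.exp (-E) / 4 := by
          rw [neg_add, Real.exp_add, Real.exp_neg (Real.log 4), Real.exp_log (by norm_num)]
          ring
  have hlog4 : Real.log 4 ≤ 14 / 10 := by
    have : (4 : ℝ) = 2 ^ 2 := by norm_num
    rw [this, Real.log_pow]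
    have := Real.log_two_lt_d9
    push_cast
    linarith
  have hlog2 : Real.log 2 ≤ 7 / 10 := by
    have := Real.log_two_lt_d9
    linarith
  have hlog2' : 69 / 100 ≤ Real.log 2 := by
    have := Real.log_two_gt_d9
    linarith
  have hlog20 : Real.log 20 ≤ 3 := by
    have h2 : (20 : ℝ) ≤ Real.exp 3 := by
      have h3 : Real.exp 3 = Real.exp 1 ^ 3 := by rw [← Real.exp_nat_mul]; norm_num
      have h4 : (2.7182818283 : ℝ) < Real.exp 1 := Real.exp_one_gt_d9
      rw [h3]
      calc (20 : ℝ) ≤ (2.7182818283 : ℝ) ^ 3 := by norm_num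
        _ ≤ _ := pow_le_pow_left₀ (by norm_num) h4.le 3
    exact (Real.log_le_iff_le_exp (by norm_num)).2 h2
  have b1 : (1 - ε / 2) ^ (2 * t) ≤ Real.exp (-E) / 4 := hpow.trans (hq _ (by nlinarith))
  have b2 : 2 * (20 / (n : ℝ)) ^ R ≤ Real.exp (-E) / 4 := by
    have h2 : 2 * (20 / (n : ℝ)) ^ R = Real.exp (Real.log 2 + R * (Real.log 20 - L)) := by
      rw [Real.exp_add, Real.exp_log (by norm_num), Real.exp_nat_mul, Real.exp_sub,
        Real.exp_log (by norm_num), hL, Real.exp_log hn0]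
    rw [h2]
    refine hq _ ?_
    have h3 : (R : ℝ) * (Real.log 20 - L) ≤ -(R * 3) := by nlinarith [Nat.cast_nonneg (α := ℝ) R]
    nlinarith
  have b3 : 2 * (n : ℝ) ^ (12 * J) * (7 / 8) ^ (R + 1) ≤ Real.exp (-E) / 4 := by
    have h78 : Real.log (7 / 8) ≤ -(13 / 100) := by
      have h3 : (7 / 8 : ℝ) ≤ Real.exp (-(13 / 100)) := by
        have h4 := Real.add_one_le_exp (-(13 / 100) / 3 : ℝ)
        have h5 : Real.exp (-(13 / 100)) = Real.exp (-(13 / 100) / 3) ^ 3 := by
          rw [← Real.exp_nat_mul]; congr 1; push_cast; ring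
        rw [h5]
        calc (7 / 8 : ℝ) ≤ (-(13 / 100) / 3 + 1) ^ 3 := by norm_num
          _ ≤ _ := pow_le_pow_left₀ (by norm_num) h4 3
      exact (Real.log_le_iff_le_exp (by norm_num)).2 h3
    have h2 : 2 * (n : ℝ) ^ (12 * J) * (7 / 8) ^ (R + 1) =
        Real.exp (Real.log 2 + (12 * J : ℕ) * L + (R + 1 : ℕ) * Real.log (7 / 8)) := by
      rw [Real.exp_add, Real.exp_add, Real.exp_log (show (0 : ℝ) < 2 by norm_num),
        Real.exp_nat_mul, Real.exp_nat_mul, Real.exp_log (show (0 : ℝ) < 7 / 8 by norm_num), hL,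
        Real.exp_log hn0]
    rw [h2]
    refine hq _ ?_
    have h3 : ((R + 1 : ℕ) : ℝ) * Real.log (7 / 8) ≤ ((R : ℝ) + 1) * (-(13 / 100)) := by
      push_cast
      exact mul_le_mul_of_nonneg_left h78 (by positivity)
    have h4 : ((12 * J : ℕ) : ℝ) * L ≤ 12 * (R / 200) := by
      push_cast
      linarith
    linarith
  have b4 : 1 / (2 : ℝ) ^ J ≤ Real.exp (-E) / 4 := by
    have h2 : 1 / (2 : ℝ) ^ J = Real.exp (-(J * Real.log 2)) := by
      rw [Real.exp_neg, Real.exp_nat_mul, Real.exp_log (by norm_num), one_div]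
    rw [h2]
    refine hq _ ?_
    have hAL' : 1000 ≤ A / L := by
      rw [le_div_iff₀ (by linarith)]
      exact hAL
    have h3 : E = A / L / 1000 := by rw [hE]; field_simp
    have h4 : (R : ℝ) / (200 * L) = (R : ℝ) / L / 200 := by field_simp
    have h5 : A / L - 1 / 6 ≤ (R : ℝ) / L := by
      have h6 : A / L ≤ ((R : ℝ) + 1) / L := by
        apply div_le_div_of_nonneg_right hRA'.le (by linarith)
      have h7 : 1 / L ≤ 1 / 6 := one_div_le_one_div_of_le (by norm_num) hL6
      rw [add_div] at h6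
      linarith
    rw [h4] at hJR'
    rw [h3]
    nlinarith
  have : Real.exp (-(A / (1000 * L))) = Real.exp (-E) := rfl
  rw [this]
  linarith

end Pool.Agent.Helper6.GP
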