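import Pool.Agent.Helper6.GP.Assembly0
import Pool.Agent.Helper6.GP.LZW
import Pool.Agent.Helper6.GP.NTR
import Pool.Agent.Helper6.GP.Main

/-! Project GP: assembly. -/

namespace Pool.Agent.Helper6.GP

theorem fing : S_FING := fing_of lzw_all ntr

end Pool.Agent.Helper6.GP
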