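import Pool.Agent.Helper56.GP.TGR
import Pool.Agent.Helper56.GP.CLS
import Pool.Agent.Helper13.GP.NTA
import Pool.Agent.Helper77.GP.HITR
import Pool.Agent.Helper97.GP.PAR
import Pool.Agent.Helper61.GP.HITN
import Pool.Agent.Helper61.GP.ENT
import Pool.Agent.Helper38.GP.RATIO
import Pool.Agent.Helper19.GP.CAV
import Pool.Agent.Helper89.GP.NEAR
import Pool.Agent.Helper2.GP.DETG
import Pool.Agent.Helper67.GP.GOODG
import Pool.Agent.Helper73.GP.FING
import Pool.Agent.Helper51.LL.Law

/-! Project GP: assembly from the packets (modulo `S_LZW`, `S_NTR`). -/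

namespace Pool.Agent.Helper6.GP

theorem fing_of (lzw : S_LZW) (ntr : S_NTA → S_NTR) : S_FING := by
  have tgr : S_TGR := Pool.Agent.Helper56.GP.TGR.thm
  have nta : S_NTA := Pool.Agent.Helper13.GP.thm lzw tgr Pool.Agent.Helper51.LL.law1
  have hitr : S_HITR := Pool.Agent.Helper77.GP.thm lzw
  have cls : S_CLS := Pool.Agent.Helper56.GP.thm
  have par : S_PAR := Pool.Agent.Helper97.GP.thm
  have hitn : S_HITN := Pool.Agent.Helper61.GPH.thm (ntr nta) hitr cls par
  have ratio : S_RATIO := Pool.Agent.Helper38.GP.thm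
  have ent : S_ENT := Pool.Agent.Helper61.GP.thm
  have cav : S_CAV := Pool.Agent.Helper19.GP.thm
  have near : S_NEAR := Pool.Agent.Helper89.GP.NEAR.thm lzw
  have detg : S_DETG := Pool.Agent.Helper2.GP.DETG.thm lzw cav near
  have goodg : S_GOODG := Pool.Agent.Helper67.GP.GOODG.thm tgr ratio ent detg
  exact Pool.Agent.Helper73.GP.thm hitn goodg

end Pool.Agent.Helper6.GP
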