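import Pool.Agent.Helper3.AK.Goals4
import Pool.Agent.Helper15.An.CharMat
import Pool.Agent.Helper73.LL.Goals
import Pool.Agent.Helper6.T5.Hit
import Pool.Agent.Helper6.AK.DGoals

/-! # Project GP (MP_75608d_al): polynomial spectral gap on ALL of `A_n` for every fixed number of
random elements

**Theorem.**  Let `k ≥ 1` and let `z = (z_1, …, z_k)`, `x = (z_1, …, z_k, y)` be independent uniformly
random elements of `A_n`.  If with high probability `z` has a constant gap on `r`-tuples for all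
`r ≤ n^α` (`0 < α < 1`) and `x` has one for all `r ≤ n^β` (`β > 1/2`), then for every `δ > 0` with
high probability the random walk with steps `x` has spectral gap at least `n^(-(2-α)-δ)` on all
functions on `A_n` of sum zero.  With project AK (`α < 1 - (2/3) 2^(-(k-2))`) the gap of `k ≥ 3` random
elements is at least `n^(-1-(2/3) 2^(-(k-3))-δ)`: exponent `5/3` for three elements, `4/3` for four,
`→ 1`.  (Known: about `n^(-2)` up to logarithms for two random elements, Helfgott, Seress, Zuk.)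

**Proof.**  `κ_t = lazyLaw z t`, the law of `t` lazy steps, `t` about `n^α log n`.
(1) `tr ρ_i(κ_t)^2 ≤ exp (- n^α/(1000 log n)) D_i` for all `i` nontrivial on `A_n` (NTR): on the levels
`≤ n^α` by the gap, on the higher levels because the law rarely has many fixed points and by the
character bound.
(2) Let `E` be the class of type `(M^q, s, s, 1^j)`, `M` odd, about `n^(1-α+e)`, `q` about `n^(α-e)`, `s` even,
`2 s` about `n^(1/2+e)`, `j ≤ 3`; its density is at least `n^(-2q-3)`; for `u ∈ E` the power `u^M` moves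
exactly `2 s` points.  A robust second moment argument (HITR): for most `y`, for every set `B` with
`κ_t(B) ≤ 1/8` there are `g₁, g₂ ∉ B` with `y g₁ g₂ ∈ E`.
(3) Let `f` be a unit vector in `ρ_i` with `⟨P f, f⟩ > 1 - η`.  Then `E_{κ_t} ‖g f - f‖² ≤ 2 t η`, so with
`B = {‖g f - f‖² > 16 t η}` we get `u = y g₁ g₂ ∈ E` with `‖u f - f‖ ≤ 10 √(t η)` and `c = u^M` with
`‖c f - f‖ ≤ 10 M √(t η) ≤ 1/8`.
(4) If `h` has law `lazyLaw x t''`, `t''` about `s log n`, then `h` is nearly uniform on `2s`-tuples, so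
`E_h ρ_i(h c h⁻¹)` is nearly the scalar `χ_i(c)/D_i`, and `⟨E_h ρ_i(h c h⁻¹) f, f⟩` is near `⟨c f, f⟩`.
(5) On the levels `> n^β` one has `|χ_i(c)| ≤ D_i/2` because `c` moves at least `n^(1/2+e)` points
(RATIO): a contradiction.  The levels `≤ n^β` have a constant gap. -/

set_option linter.unusedVariables false

namespace Pool.Agent.Helper6.GP

open Matrix Equiv Filter Topology Pool.Agent.Helper15.An
open scoped ComplexOrder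
open Pool.Agent.Helper3.AK (lazyLaw)

/-- **LZW** (the lazy law in a representation).
Proof. (1) Induction on `t`: `lazyLaw z (t+1) g = (1/2) lazyLaw z t g + (4k)⁻¹ ∑_i (lazyLaw z t (g z_i⁻¹) + lazyLaw z t (g z_i))`;
`∑_g μ(g z_i⁻¹) • ρ g = (∑_g μ(g) • ρ g) * ρ(z_i)` and the same with the inverse; so
`wop ρ (lazyLaw z (t+1)) = (1/2) W + (4k)⁻¹ W ∑_i (ρ z_i + ρ z_i⁻¹) = W * ((1/2) • (1 + wop ρ (tupW z)))` with `W = wop ρ (lazyLaw z t)`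
(`wop_tupW`, or directly from the definition of `tupW`).  (2) Induction: `g ∈ Alt n` iff `g z_i ∈ Alt n`.  (3) Induction on `t` with
`Function.iterate_succ_apply`: `(lwalk z)^[t+1] f y = (lwalk z)^[t] (lwalk z f) y = ∑_g κ_t(g) (lwalk z f) (y g)
= ∑_g κ_t(g) ((1/2) f(y g) + (4k)⁻¹ ∑_i (f(y g z_i) + f(y g z_i⁻¹)))`, and substituting `g z_i`, `g z_i⁻¹` gives `∑_g κ_{t+1}(g) f(y g)`.
(4) the positivity and the total mass are in `Pool.Agent.Helper60.AK.LZ` (`lazy_nonneg`, `lazy_sum`). -/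
def S_LZW : Prop := ∀ (n k t : ℕ) (z : Fin k → Alt n), 1 ≤ k →
  (∀ (D : ℕ) (ρ : Perm (Fin n) →* Matrix (Fin D) (Fin D) ℂ), (∀ g, (ρ g)ᴴ * ρ g = 1) →
    wop ρ (lazyLaw z t) =
      ((1 / 2 : ℝ) • ((1 : Matrix (Fin D) (Fin D) ℂ) + wop ρ (tupW z))) ^ t) ∧
  (∀ g : Perm (Fin n), g ∉ Alt n → lazyLaw z t g = 0) ∧
  (∀ (f : Alt n → ℝ) (y : Alt n), (Pool.Agent.Helper6.T5.lwalk z)^[t] f y =
    ∑ g : Alt n, lazyLaw z t (g : Perm (Fin n)) * f (y * g)) ∧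
  (∀ g, 0 ≤ lazyLaw z t g) ∧ ∑ g, lazyLaw z t g = 1

/-- **TGR** (from the gap on tuples to the gap in the representations of level at most `r`).
Proof. Let `v ≠ 0` be fixed by `stab n r` (`HasFix`), `τ` a transposition of two points `≥ r` (`r + 2 ≤ n`), `v' = ρ(τ) v`; `v'` is
also fixed by `stab n r` (`τ` normalizes it).  For a tuple `a : Fin r ↪ Fin n` choose an even `g_a` with `g_a j = a j` for `j < r` (exists as
`r + 2 ≤ n`; see `exists_alt_preTuple`, `sum_preTuple` in Pool/Agent/Helper6/FixK/Rayleigh.lean); `ρ(g) v` depends only on the values `g j`, `j < r`, for even `g`.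
For `w` put `φ_w(a) = ⟨ρ(g_a) v, w⟩`, `φ'_w(a) = ⟨ρ(g_a) v', w⟩` (complex valued).  (a) `∑_a φ_w(a) = |stab|⁻¹ ∑_{g ∈ A} ⟨ρ(g) v, w⟩ = 0` because
`psum ρ (Alt n) = 0` (`dichotomy`, `ρ` nontrivial on `Alt n`).  (b) `∑_a (|φ_w(a)|² + |φ'_w(a)|²) = |stab|⁻¹ ∑_{g ∈ Perm} |⟨ρ(g) v, w⟩|² = C ‖w‖²`,
`C = |G| ‖v‖² / (D |stab|) > 0` (the odd permutations are the `g τ`, `g` even; Schur: `IsIrr.schur` with `M = v v*`).  (c) for even `y`: `φ_{ρ(y) w}(a) = ⟨ρ(y⁻¹ g_a) v, w⟩ = φ_w(y⁻¹ ∘ a)`.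
So `∑_a (conj φ_w(a) φ_{W w}(a) + the same with φ') = C ⟨w, W w⟩` for `W = wop ρ (tupW x)` (polarization of (b), or `⟨ρ(y) w, w⟩` expressed by the same Schur sum), and the left
side is the quadratic form of the tuple walk at the real and imaginary parts of `φ_w`, `φ'_w` (real functions of sum zero): by TupleGap it is at most `(1-ε)` times
the squared norms.  Hence `qf W w ≤ (1-ε) nrm2 w` for all `w`; `posSemidef_of_qf`. -/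
def S_TGR : Prop := ∀ (n k r D : ℕ) (x : Fin k → Alt n) (ε : ℝ), 1 ≤ k → r + 2 ≤ n →
  Pool.Agent.Helper3.AK.TupleGap x r ε → ∀ ρ : Perm (Fin n) →* Matrix (Fin D) (Fin D) ℂ,
  IsIrr ρ → ¬ Triv ρ (Alt n) → HasFix ρ (stab n r) →
    ((1 - ε) • (1 : Matrix (Fin D) (Fin D) ℂ) - wop ρ (tupW x)).PosSemidef

/-- **NTA** (trace of the square of a long lazy law).  May assume S_LZW, S_TGR and
`Pool.Agent.Helper73.LL.S_LAW1` (proved: find the theorem of type `S_LAW1` under Pool/Agent).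
Proof. `κ = lazyLaw z (2 t)`, `ρ = F.ρ i`, `P = wop ρ (tupW z)`, `L = (1/2)(1 + P)`, `wop ρ κ = L^(2t)` (LZW); `-1 ≤ P ≤ 1` (`one_sub_wop`, `wop_add_one`, `tupW_isSP`), so `0 ≤ L ≤ 1`.
Case 1, `HasFix ρ (stab n R)`: `P ≤ 1 - ε` (TGR), `0 ≤ L ≤ 1 - ε/2`, `0 ≤ L^(2t) ≤ (1-ε/2)^(2t)` (spectral theorem), trace `≤ D (1-ε/2)^(2t)`.
Case 2, otherwise: `tr (wop ρ κ) = ∑_g κ g tr ρ(g)`; for `10 fixc g < n`: `|tr ρ(g)| ≤ (2 n^(12J) (7/8)^(R+1) + 2^(-J)) D` (`char_bound_mat`), for the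
others `|tr ρ(g)| ≤ D` and by LAW1 with `r = R`, `F₀ = n/10` (rounded up; `n ≤ 10 fixc g` iff `F₀ ≤ fixc g` for `F₀ = ⌈n/10⌉`), `δ = (1-ε/2)^(2t)`:
`∑ κ g [n ≤ 10 fixc g] ≤ 2 (2/F₀)^R ≤ 2 (20/n)^R`.  (The hypothesis of LAW1 on the levels `≤ R` is case 1.) -/
def S_NTA : Prop := ∀ (n k t R J : ℕ) (z : Fin k → Alt n) (ε : ℝ), 1 ≤ k → 0 < ε → ε ≤ 1 →
  64 ≤ n → 20 * (R + 1) ≤ n → 20 * (12 * J + 1) ≤ n →
  Pool.Agent.Helper3.AK.TupleGap z R ε →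
  (1 - ε / 2) ^ (2 * t) * (n.descFactorial R : ℝ) ≤ 1 →
  ∀ (F : PW (Perm (Fin n))) (i : Fin F.c), ¬ Triv (F.ρ i) (Alt n) →
  (trace (wop (F.ρ i) (lazyLaw z (2 * t)))).re ≤
    ((1 - ε / 2) ^ (2 * t) + 2 * (20 / (n : ℝ)) ^ R + 2 * (n : ℝ) ^ (12 * J) * (7 / 8) ^ (R + 1) +
      1 / 2 ^ J) * F.D i

/-- **NTR** (numbers).  May assume S_NTA.
Proof. `R = ⌊n^α⌋`, `J = ⌊R / (200 log n)⌋`, `L = log n`, `n` large (`α < 1`, so `20 (R+1) ≤ n` etc.).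
`(1-ε/2)^(2t) ≤ exp (-ε t) ≤ exp (-4 n^α L)`, and `(n)_R ≤ n^R = exp (R L)`.  `2 (20/n)^R ≤ 2 exp (-R L/2)`.
`n^(12 J) ≤ exp (12 R/200) = exp (0.06 R)`, `(7/8)^(R+1) ≤ exp (-0.13 R)`; `2^(-J) ≤ 2 exp (-0.69 R/(200 L))`.  With
`R ≥ n^α - 1` each term is at most `(1/4) exp (- n^α / (1000 L))` for large `n`. -/
def S_NTR : Prop := ∀ (k : ℕ) (α ε : ℝ), 1 ≤ k → 0 < α → α < 1 → 0 < ε → ε ≤ 1 →
  ∀ᶠ n : ℕ in atTop, ∀ z : Fin k → Alt n,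
    (∀ r : ℕ, (r : ℝ) ≤ (n : ℝ) ^ α → Pool.Agent.Helper3.AK.TupleGap z r ε) →
    ∀ t : ℕ, 4 * (n : ℝ) ^ α * Real.log n / ε ≤ t →
    ∀ (F : PW (Perm (Fin n))) (i : Fin F.c), ¬ Triv (F.ρ i) (Alt n) →
      (trace (wop (F.ρ i) (lazyLaw z (2 * t)))).re ≤
        Real.exp (-((n : ℝ) ^ α / (1000 * Real.log n))) * F.D i

/-- the words `y g₁ g₂` hit the set `E` robustly: one can avoid every set of probability `≤ 1/8` -/
def Hits {n k : ℕ} (z : Fin k → Alt n) (t : ℕ) (E : Alt n → Prop) (y : Alt n) : Prop :=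
  ∀ B : Finset (Perm (Fin n)), ∑ g ∈ B, lazyLaw z t g ≤ 1 / 8 →
    ∃ g₁ g₂ : Alt n, (g₁ : Perm (Fin n)) ∉ B ∧ (g₂ : Perm (Fin n)) ∉ B ∧ E (y * g₁ * g₂)

/-- **HITR** (robust second moment).  May assume S_LZW.
Proof. `A = |Alt n|`, `p = |E|/A` (`E` nonempty, else trivial), `κ = lazyLaw z t`, `N(v) = p⁻¹ ∑_g κ(g) 1_E(v g)`.  `energy_le` (Helper6/T5/Hit.lean) with `Z = {z}`, `ℓ = t`, `β = τ`,
`f = 1_E - p` (a class function of sum zero; `∑ f² ≤ |E|`; the hypothesis is `hτ` rewritten with LZW and `wop_tupW`: `lz (avgRe …)^(2t) = wop ρ (lazyLaw z (2t))`)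
and LZW (3) give `p² ∑_v (N(v) - 1)² ≤ τ |E|`, i.e. `∑_v (N(v) - 1)² ≤ τ A²/|E|`.
For `y` put `a_y(g) = N(y g) = p⁻¹ ∑_{g'} κ(g') 1_E(y g g')` and `b_y(g') = N(g' y) = p⁻¹ ∑_g κ(g) 1_E(y g g')` (`g' y g` and `y g g'` are conjugate).
Then `∑_y ∑_g κ(g) (a_y(g) - 1)² = ∑_v (N(v)-1)²`, the same for `b`.  Markov: apart from at most `200 τ A²/|E|` elements `y` both
`∑_g κ(g) (a_y(g) - 1)² ≤ 1/100` and `∑_{g'} κ(g') (b_y(g')-1)² ≤ 1/100`, hence `∑ κ |a_y - 1| ≤ 1/10`, `∑ κ |b_y - 1| ≤ 1/10` (Cauchy-Schwarz).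
For such `y` and `B` with `κ(B) ≤ 1/8`: `∑_{g,g'} κ(g) κ(g') 1_E(y g g')/p = ∑ κ(g) a_y(g) ≥ 9/10`; the part with `g ∈ B` is `≤ κ(B) + 1/10 ≤ 0.225`, the part with `g' ∈ B` also.
So there is a pair with `g, g' ∉ B` (in `Alt n`, as `κ` vanishes outside) and `y g g' ∈ E`. -/
def S_HITR : Prop := ∀ (n k t : ℕ) (z : Fin k → Alt n) (F : PW (Perm (Fin n))) (τ : ℝ), 1 ≤ k →
  2 ≤ n → 0 ≤ τ →
  (∀ i, ¬ Triv (F.ρ i) (Alt n) → (trace (wop (F.ρ i) (lazyLaw z (2 * t)))).re ≤ τ * F.D i) →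
  ∀ E : Finset (Alt n), (∀ (σ : Perm (Fin n)) (g h : Alt n),
    (h : Perm (Fin n)) = σ * g * σ⁻¹ → g ∈ E → h ∈ E) →
  (Nat.card {y : Alt n // ¬ Hits z t (fun u => u ∈ E) y} : ℝ) * E.card ≤
    200 * τ * (Fintype.card (Alt n) : ℝ) ^ 2

/-- the class of the even permutations of type `(M^q, s, s)` and fixed points -/
noncomputable def Cls (n M q s : ℕ) : Finset (Alt n) := by
  classical
  exact Finset.univ.filter fun u : Alt n =>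
    (u : Perm (Fin n)).cycleType = Multiset.replicate q M + Multiset.replicate 2 s

/-- **CLS** (the class).
Proof. (1) `cycleType` is invariant under conjugation (`Equiv.Perm.cycleType_conj`).  (2) `u^M` fixes the points of the `M`-cycles; the points of a cycle of length `s` are moved because
`s` (even) does not divide `M` (odd); so the support of `u^M` is the union of the supports of the two cycles of length `s`: `2 s` points.  (For example: a point `p` is moved by `u^M` iff the size of its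
orbit (`(u.cycleOf p).support.card`, or `1`) does not divide `M`; count the points by the cycles, `Equiv.Perm.cycleFactorsFinset`, `cycleType_def`.)  (3) All permutations of this
type are even (`M` odd; `Equiv.Perm.sign_of_cycleType`), so `|Cls| = n! / ((n - qM - 2s)! M^q s² q! 2!)` by `Equiv.Perm.card_of_cycleType` (`count M = q`, `count s = 2` as `s ≠ M`), and
`2 |Alt n| = n!`, so `|Alt n| / |Cls| = (n-qM-2s)! M^q s² q! ≤ 6 n^q n² n^q ≤ n^(2q+3)` (`n ≥ 6`, `q ≤ n`; `(n-qM-2s)! ≤ 3! = 6`). -/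
def S_CLS : Prop := ∀ (n M q s : ℕ), Odd M → 3 ≤ M → Even s → 2 ≤ s → 1 ≤ q → 6 ≤ n →
  q * M + 2 * s ≤ n → n ≤ q * M + 2 * s + 3 →
  (∀ (σ : Perm (Fin n)) (g h : Alt n), (h : Perm (Fin n)) = σ * g * σ⁻¹ →
    g ∈ Cls n M q s → h ∈ Cls n M q s) ∧
  (∀ u ∈ Cls n M q s, (((u : Perm (Fin n)) ^ M).support.card = 2 * s)) ∧
  (Fintype.card (Alt n) : ℝ) ≤ (n : ℝ) ^ (2 * q + 3) * (Cls n M q s).card

/-- **PAR** (the parameters of the class).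
Proof. `A = ⌈n^(1/2+e)⌉ + 8`.  Case `a ≤ 1/2`: `q = ⌊n^a⌋` (`≥ 1`), `M` the largest odd number with `q M ≤ n - A`; so `M ≤ n/q ≤ 2 n^(1-a)` and `A ≤ n - q M < A + 2 q ≤ A + 2 √n`.
Case `a > 1/2`: `M` the smallest odd number `≥ max 3 (n^(1-a))`, `M ≤ 2 n^(1-a)` and `M ≤ √n` for large `n`, `q = ⌊(n-A)/M⌋ ≤ n^a`, `A ≤ n - q M < A + √n`.  In both cases put
`L = n - q M`, `s = 2 (L / 4)`: `L - 3 ≤ 2 s ≤ L`, so `n^(1/2+e) ≤ 2 s ≤ n^(1/2+e) + 9 + 2 √n ≤ 2 n^(1/2+e)` for large `n`. -/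
def S_PAR : Prop := ∀ a e : ℝ, 0 < a → a < 1 → 0 < e → e < 1 / 2 → ∀ᶠ n : ℕ in atTop,
  ∃ M q s : ℕ, Odd M ∧ 3 ≤ M ∧ Even s ∧ 2 ≤ s ∧ 1 ≤ q ∧ q * M + 2 * s ≤ n ∧
    n ≤ q * M + 2 * s + 3 ∧ (M : ℝ) ≤ 2 * (n : ℝ) ^ (1 - a) ∧ (q : ℝ) ≤ (n : ℝ) ^ a ∧
    (n : ℝ) ^ (1 / 2 + e) ≤ 2 * s ∧ (2 * s : ℝ) ≤ 2 * (n : ℝ) ^ (1 / 2 + e)

/-- **HITN** (hitting, with numbers).  May assume S_NTR, S_HITR, S_CLS, S_PAR.
Proof. PAR with `a = α - e`; `S₀ = 2 s`; `E = Cls n M q s`.  HITR with `τ = exp (-(n^α/(1000 log n)))` (NTR; `F` from `exists_pw`): the number of `y` with `¬ Hits z t (· ∈ E) y` is at most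
`200 τ |A|²/|E| ≤ 200 τ n^(2q+3) |A|`, and `n^(2q+3) = exp ((2q+3) log n) ≤ exp ((2 n^(α-e) + 3) log n)`, so this is at most `|A|/n` for large `n`
(`200 n exp ((2 n^(α-e)+3) log n - n^α/(1000 log n)) ≤ 1`).  `Hits` for `u ∈ E` implies `Hits` for the larger set by CLS (2). -/
def S_HITN : Prop := ∀ (k : ℕ) (α ε e : ℝ), 1 ≤ k → 0 < α → α < 1 → 0 < ε → ε ≤ 1 → 0 < e →
  e < α → e < 1 / 2 → ∀ᶠ n : ℕ in atTop, ∃ M S₀ : ℕ, (M : ℝ) ≤ 2 * (n : ℝ) ^ (1 - α + e) ∧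
    (n : ℝ) ^ (1 / 2 + e) ≤ S₀ ∧ (S₀ : ℝ) ≤ 2 * (n : ℝ) ^ (1 / 2 + e) ∧
    ∀ z : Fin k → Alt n,
    (∀ r : ℕ, (r : ℝ) ≤ (n : ℝ) ^ α → Pool.Agent.Helper3.AK.TupleGap z r ε) →
    ∀ t : ℕ, 4 * (n : ℝ) ^ α * Real.log n / ε ≤ t →
    (Nat.card {y : Alt n // ¬ Hits z t
      (fun u => ((u : Perm (Fin n)) ^ M).support.card = S₀) y} : ℝ) * n ≤ Fintype.card (Alt n)

/-- **RATIO** (character bound for elements moving at least `n^(1/2+e)` points).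
Proof. A variant of `char_bound` (Pool/Agent/Helper15/An/Char.lean) and `char_bound_mat` (CharMat.lean).  `T` from `exists_T g`: `g T ∩ T = ∅`, `3 |T| ≥ n - fixc g ≥ n^(1/2+e)`.  `J = 2`, `s = 12 J = 24`;
for `R ⊆ T`, `|R| = 24`: `C = T \ R`, `|C| ≥ n^(1/2+e)/4` for large `n`.  `λ = ⌊n^(1/2+e)/100⌋`, `r = λ - 1`: `¬ HasFix ρ (stab n r)` (`HasFix.mono`, `r ≤ m`), so by
`finrank_fixS_le` (with `2 λ + 1 < |C|`) as in `finrank_altfix_le`: `finrank (altfix ρ C) ≤ 2 (1 - (|C| - 2λ - 1)/(n - 2λ - 1))^λ finrank V ≤ 2 exp (-(n^(-1/2+e)/8) λ) finrank V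
≤ 2 exp (- n^(2e)/1000) finrank V`.  So `finrank U ≤ n^24 · 2 exp (-n^(2e)/1000) finrank V ≤ finrank V/4` for large `n`; `dim_doubling` and `k_trick` with `q = 2^J = 4` give
`|tr ρ(g)| ≤ finrank U + finrank V/4 ≤ finrank V/2`. -/
def S_RATIO : Prop := ∀ e : ℝ, 0 < e → e < 1 / 2 → ∀ᶠ n : ℕ in atTop, ∀ (D m : ℕ)
  (ρ : Perm (Fin n) →* Matrix (Fin D) (Fin D) ℂ), (∀ g, (ρ g)ᴴ * ρ g = 1) →
  ¬ HasFix ρ (stab n m) → (n : ℝ) ^ (1 / 2 + e) ≤ m → ∀ g : Perm (Fin n),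
  (n : ℝ) ^ (1 / 2 + e) ≤ (g.support.card : ℝ) → ‖trace (ρ g)‖ ≤ D / 2

/-- **ENT** (uniformity of a long lazy word on tuples, two-sided).
Proof. Exactly the proof of `ur` in Pool/Agent/Helper67/AK/UR.lean (`Lz_pow_bound`, `Lz_pow_const`): the sum is `1/N + (Lz^t ψ) a` with `|(Lz^t ψ) a| ≤ (1-ε/2)^t`; `S_LZ` is proved (Helper60/AK/LZ, `lz`). -/
def S_ENT : Prop := ∀ (n k s t : ℕ) (x : Fin k → Alt n) (ε : ℝ), 1 ≤ k → s ≤ n → 0 < ε → ε ≤ 1 →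
  Pool.Agent.Helper3.AK.TupleGap x s ε → ∀ a b : Fin s ↪ Fin n,
  |∑ g ∈ Finset.univ.filter (fun g : Perm (Fin n) => ∀ i, g (a i) = b i), lazyLaw x t g -
    1 / (n.descFactorial s : ℝ)| ≤ (1 - ε / 2) ^ t

/-- **CAV** (average over conjugates).
Proof. Let `a : Fin s ↪ Fin n` enumerate the support of `c`.  For a tuple `b` choose `σ_b` with `σ_b ∘ a = b`; if `h ∘ a = b` then `h c h⁻¹ = σ_b c σ_b⁻¹` (both agree on `b`'s range and fix the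
other points).  So `∑_h κ(h) ρ(h c h⁻¹) = ∑_b P(b) M_b`, `P(b) = ∑_{h ∘ a = b} κ h`, `M_b = ρ(σ_b c σ_b⁻¹)`, and with `κ` replaced by the uniform law (`1/(n)_s` for every `b`, since `(n-s)!` permutations map `a` to `b`):
`∑_b (n)_s⁻¹ M_b = |G|⁻¹ ∑_h ρ(h) ρ(c) ρ(h)ᴴ = (tr ρ(c)/D) 1` (`IsIrr.schur`).  The difference of the quadratic forms is at most `∑_b |P(b) - 1/(n)_s| |⟨M_b f, f⟩| ≤ (n)_s θ` (unitary, unit vector). -/
def S_CAV : Prop := ∀ (n D s : ℕ) (ρ : Perm (Fin n) →* Matrix (Fin D) (Fin D) ℂ) (c : Perm (Fin n))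
  (κ : Perm (Fin n) → ℝ) (θ : ℝ) (f : Fin D → ℂ), IsIrr ρ → c.support.card = s →
  (∀ a b : Fin s ↪ Fin n, |∑ g ∈ Finset.univ.filter (fun g : Perm (Fin n) => ∀ i, g (a i) = b i),
    κ g - 1 / (n.descFactorial s : ℝ)| ≤ θ) → nrm2 f = 1 →
  |∑ h, κ h * qf (ρ (h * c * h⁻¹)) f| ≤ ‖trace (ρ c)‖ / D + θ * (n.descFactorial s : ℝ)

/-- **NEAR** (near-invariance under long lazy words).  May assume S_LZW.
Proof. `L = (1/2)(1 + P)`, `P = wop ρ (tupW z)`, `0 ≤ L ≤ 1` (`one_sub_wop`, `wop_add_one`, `tupW_isSP`).  `nrm2 (ρ(g) f - f) = 2 nrm2 f - 2 qf (ρ g) f` (`nrm2_sub_unitary`), so the left side is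
`2 nrm2 f - 2 qf (L^t) f` (LZW, total mass one).  `L^j - L^(j+1) = L^j (1 - L) ≤ 1 - L` (commuting, `0 ≤ L ≤ 1`; spectral theorem), so
`nrm2 f - qf (L^t) f ≤ t (nrm2 f - qf L f) = (t/2) (nrm2 f - qf P f)`.
(2), (3): `(k+1) qf (wop ρ (tupW x)) f = ∑_j qf (ρ(x_j)) f` (`wop_tupW`, `qf_avgRe`), every term `nrm2 f - qf (ρ(x_j)) f = nrm2 (ρ(x_j) f - f)/2 ≥ 0`;
for `z = Fin.init x`: `k (nrm2 f - qf (wop ρ (tupW z)) f) ≤ (k+1) (nrm2 f - qf (wop ρ (tupW x)) f) ≤ 2k (…)`. -/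
def S_NEAR : Prop := ∀ (n D k t : ℕ) (ρ : Perm (Fin n) →* Matrix (Fin D) (Fin D) ℂ)
  (f : Fin D → ℂ), (∀ g, (ρ g)ᴴ * ρ g = 1) → 1 ≤ k →
  (∀ z : Fin k → Alt n, ∑ g, lazyLaw z t g * nrm2 (ρ g *ᵥ f - f) ≤
    t * (nrm2 f - qf (wop ρ (tupW z)) f)) ∧
  (∀ x : Fin (k + 1) → Alt n, ∀ j, nrm2 (ρ (x j : Perm (Fin n)) *ᵥ f - f) ≤
    2 * (k + 1) * (nrm2 f - qf (wop ρ (tupW x)) f)) ∧
  (∀ x : Fin (k + 1) → Alt n, nrm2 f - qf (wop ρ (tupW (Fin.init x : Fin k → Alt n))) f ≤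
    2 * (nrm2 f - qf (wop ρ (tupW x)) f))

/-- **DETG** (the deterministic argument for one representation).  May assume S_LZW, S_CAV, S_NEAR.
Proof. Let `W = wop ρ (tupW x)`.  By `posSemidef_of_qf` and homogeneity it suffices that `qf W f ≤ 1 - η` for every `f` with `nrm2 f = 1`.  Suppose `1 - qf W f < η`.  `z = Fin.init x`, `y = x (Fin.last k)`.
NEAR: `nrm2 (ρ(y) f - f) ≤ 2 (k+1) η`; `∑ lazyLaw z t g · nrm2 (ρ(g) f - f) ≤ 2 t η`; `∑ lazyLaw x t₂ h · nrm2 (ρ(h) f - f) ≤ t₂ η`.  `B = {g : 16 t η < nrm2 (ρ(g) f - f)}`: mass of `B` at most `1/8` (Markov, `t η > 0`).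
So there are `g₁, g₂ ∉ B` such that `c = (y g₁ g₂)^M` has support of `S₀` points.  With `‖v‖ = √(nrm2 v)` (a norm: `EuclideanSpace`/`toV`, or prove the triangle inequality once):
`‖ρ(y g₁ g₂) f - f‖ ≤ ‖ρ(y) f - f‖ + ‖ρ(g₁) f - f‖ + ‖ρ(g₂) f - f‖ ≤ √(2 (k+1) η) + 8 √(t η) ≤ 10 √(t η)` (`k + 1 ≤ t`, `√2 ≤ 2`), `‖ρ(c) f - f‖ ≤ 10 M √(t η) ≤ 1/8`, so `qf (ρ c) f ≥ 1 - 1/8`.
For every `h`: `qf (ρ(h c h⁻¹)) f = Re ⟨f, ρ(h) ρ(c) ρ(h)ᴴ f⟩ = qf (ρ c) f'` with `f' = ρ(h)ᴴ f`, `‖f' - f‖ = ‖ρ(h) f - f‖`, `|qf (ρ c) f' - qf (ρ c) f| ≤ 2 ‖f' - f‖` (unit vectors, `ρ(c)` unitary).  Average: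
`∑ lazyLaw x t₂ h · ‖ρ(h) f - f‖ ≤ √(t₂ η)` (Cauchy-Schwarz, total mass one), so `∑ lazyLaw x t₂ h · qf (ρ(h c h⁻¹)) f ≥ 1 - 1/8 - 2 √(t₂ η) ≥ 3/4`.  By CAV with `hent`, `hchar` the same sum is at most
`1/2 + θ (n)_{S₀} ≤ 5/8`: contradiction. -/
def S_DETG : Prop := ∀ (n D k t t₂ M S₀ : ℕ) (ρ : Perm (Fin n) →* Matrix (Fin D) (Fin D) ℂ)
  (x : Fin (k + 1) → Alt n) (η θ : ℝ), IsIrr ρ → 1 ≤ k → k + 1 ≤ t → 0 < η →
  10 * M * √(t * η) ≤ 1 / 8 → 2 * √(t₂ * η) ≤ 1 / 8 →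
  θ * (n.descFactorial S₀ : ℝ) ≤ 1 / 8 →
  Hits (Fin.init x : Fin k → Alt n) t (fun u => ((u : Perm (Fin n)) ^ M).support.card = S₀)
    (x (Fin.last k)) →
  (∀ c : Perm (Fin n), c.support.card = S₀ → ‖trace (ρ c)‖ ≤ D / 2) →
  (∀ a b : Fin S₀ ↪ Fin n, |∑ g ∈ Finset.univ.filter
    (fun g : Perm (Fin n) => ∀ i, g (a i) = b i), lazyLaw x t₂ g -
    1 / (n.descFactorial S₀ : ℝ)| ≤ θ) →
  ((1 - η) • (1 : Matrix (Fin D) (Fin D) ℂ) - wop ρ (tupW x)).PosSemidef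

/-- **GOODG** (one good tuple).  May assume S_TGR, S_RATIO, S_ENT, S_DETG.
Proof. `η = n^(-(2-α)-δ)`, `m = ⌊n^β⌋`; `n` large.  Let `i` be nontrivial on `Alt n`.  If `HasFix (F.ρ i) (stab n m)`: TGR (gap `ε` on `m`-tuples, `m + 2 ≤ n`) gives `wop ≤ 1 - ε ≤ 1 - η`.
Otherwise DETG with `t = ⌈4 n^α log n/ε₀⌉` and `t₂ = ⌈8 S₀ log n/ε⌉`, `θ = (1-ε/2)^t₂`: `θ (n)_{S₀} ≤ exp (-4 S₀ log n + S₀ log n) ≤ 1/8`; ENT (`S₀ ≤ 2 n^(1/2+e) ≤ n^β` as `e < β - 1/2`) is `hent`;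
RATIO (`m ≥ n^(1/2+e)`, as `n^β - 1 ≥ n^(1/2+e)`) is `hchar`; `10 M √(t η) ≤ 20 n^(1-α+e) √(5 n^α log n/ε₀ · n^(-(2-α)-δ)) = 20 √(5 log n/ε₀) n^(e-δ/2) ≤ 1/8` as `e < δ/2`;
`2 √(t₂ η) ≤ 2 √(20 n^β log n/ε · n^(-(2-α)-δ)) ≤ 1/8` since `β < 1 < 2 - α`. -/
def S_GOODG : Prop := ∀ (k : ℕ) (α β ε₀ ε e δ : ℝ), 1 ≤ k → 0 < α → α < 1 → 1 / 2 < β → β < 1 →
  0 < ε₀ → ε₀ ≤ 1 → 0 < ε → ε ≤ 1 → 0 < e → e < β - 1 / 2 → e < δ / 2 → 0 < δ →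
  ∀ᶠ n : ℕ in atTop, ∀ (M S₀ : ℕ) (x : Fin (k + 1) → Alt n),
    (M : ℝ) ≤ 2 * (n : ℝ) ^ (1 - α + e) → (n : ℝ) ^ (1 / 2 + e) ≤ S₀ →
    (S₀ : ℝ) ≤ 2 * (n : ℝ) ^ (1 / 2 + e) →
    (∀ r : ℕ, (r : ℝ) ≤ (n : ℝ) ^ β → Pool.Agent.Helper3.AK.TupleGap x r ε) →
    Hits (Fin.init x : Fin k → Alt n) ⌈4 * (n : ℝ) ^ α * Real.log n / ε₀⌉₊
      (fun u => ((u : Perm (Fin n)) ^ M).support.card = S₀) (x (Fin.last k)) →
    ∀ F : PW (Perm (Fin n)), Good F (tupW x) n ((n : ℝ) ^ (-(2 - α) - δ))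

/-- **FING** (probability).  May assume S_HITN, S_GOODG.
Proof. `ε₀, ε ≤ 1` may be assumed (`Whp` is monotone in `ε`).  `e = min (min (α/2) (1/4)) (min ((β - 1/2)/2) (δ/4))`.  Let `X₁` be the set of the `x` whose `z = Fin.init x` has the gap on the `r`-tuples, `r ≤ n^α`, `X₂` the set of the `x`
with the gap for `r ≤ n^β`.  HITN gives `M, S₀`; for `z` with the gap at most `|A|/n` elements `y` are not hit (`t = ⌈4 n^α log n/ε₀⌉`).  So the proportion of the `x : Fin (k+1) → Alt n` outside `X₁`, or outside `X₂`, or in `X₁` with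
`y = x (Fin.last k)` not hit, is at most `o(1) + o(1) + 1/n` (`Fin.snocEquiv`/`Fin.init`: the number of `x` with `Fin.init x = z` and `x (Fin.last k) = y` is one).  For the other `x` GOODG.  Squeeze. -/
def S_FING : Prop := ∀ (k : ℕ) (α β : ℝ), 1 ≤ k → 0 < α → α < 1 → 1 / 2 < β → β < 1 →
  (∃ ε : ℝ, 0 < ε ∧ Pool.Agent.Helper3.AK.Whp k α ε) →
  (∃ ε : ℝ, 0 < ε ∧ Pool.Agent.Helper3.AK.Whp (k + 1) β ε) → ∀ δ : ℝ, 0 < δ →
  Tendsto (fun n : ℕ => (Nat.card {x : Fin (k + 1) → Alt n // ∀ F : PW (Perm (Fin n)),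
    Good F (tupW x) n ((n : ℝ) ^ (-(2 - α) - δ))} : ℝ) / Nat.card (Fin (k + 1) → Alt n))
    atTop (𝓝 1)

end Pool.Agent.Helper6.GP
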