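import Pool.Agent.Helper6.GP.Small

/-! Gap for the functions of small support, with numbers. -/

namespace Pool.Agent.Helper6.GP

open Matrix Equiv Filter Topology Pool.Agent.Helper15.An Pool.Agent.Helper6.FixK
  Pool.Agent.Helper6.T5
open Pool.Agent.Helper3.AK (lazyLaw)

variable {n k : ℕ}

theorem exp_bound {x : ℝ} (h0 : 0 ≤ x) (h1 : x ≤ 1) : Real.exp (-x) ≤ 1 - x / 2 := by
  have h2 : 1 + x ≤ Real.exp x := by linarith [Real.add_one_le_exp x]
  have h3 : Real.exp (-x) * Real.exp x = 1 := by rw [← Real.exp_add]; simp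
  have h4 : 0 < Real.exp (-x) := Real.exp_pos _
  have h5 : Real.exp (-x) * (1 + x) ≤ 1 := by
    calc Real.exp (-x) * (1 + x) ≤ Real.exp (-x) * Real.exp x :=
          mul_le_mul_of_nonneg_left h2 h4.le
      _ = 1 := h3
  have h6 : 1 ≤ (1 - x / 2) * (1 + x) := by nlinarith
  by_contra h
  push Not at h
  have h7 : (1 - x / 2) * (1 + x) < Real.exp (-x) * (1 + x) :=
    mul_lt_mul_of_pos_right h (by linarith)
  linarith

/-- a power of two between `t` and `2 t` -/
theorem exists_pow_two {t : ℕ} (ht : 1 ≤ t) : ∃ s : ℕ, t ≤ 2 ^ s ∧ 2 ^ s ≤ 2 * t := by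
  refine ⟨Nat.clog 2 t, Nat.le_pow_clog (by norm_num) t, ?_⟩
  rcases Nat.eq_or_lt_of_le ht with h | h
  · rw [← h]; simp
  · have h1 := Nat.pow_pred_clog_lt_self (b := 2) (x := t) (by norm_num) h
    have h2 := Nat.clog_pos (b := 2) (n := t) (by norm_num) h
    have h3 : 2 ^ Nat.clog 2 t = 2 * 2 ^ (Nat.clog 2 t).pred := by
      conv_lhs => rw [← Nat.succ_pred_eq_of_pos h2]
      rw [pow_succ]; ring
    omega

/-- the deterministic statement for one tuple -/
theorem small_det (hlzw : S_LZW) (hk : 1 ≤ k) {R : ℕ} (hR1 : 1 ≤ R) (hR : 2 * R ≤ n) (hn : 4 ≤ n)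
    (z : Fin k → Alt n) {ε : ℝ} (hε : 0 < ε) (hε1 : ε ≤ 1)
    (hgap : Pool.Agent.Helper3.AK.TupleGap z R ε) (hL : 1 ≤ Real.log n)
    (f : Alt n → ℝ)
    (hf : 8 * Real.log (2 * (Finset.univ.filter fun g => f g ≠ 0).card) ≤
      2 * (R * Real.log n)) :
    ∑ g, f g * walk z f g ≤ (1 - ε / 40) * ∑ g, f g ^ 2 := by
  classical
  set F : ℝ := ∑ g, f g ^ 2 with hF
  set w : ℝ := ∑ g, f g * walk z f g with hw
  set N : ℕ := (Finset.univ.filter fun g => f g ≠ 0).card with hN
  have hF0 : 0 ≤ F := Finset.sum_nonneg fun _ _ => sq_nonneg _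
  have ha : ∑ g, f g * lwalk z f g = (F + w) / 2 := by
    unfold lwalk
    rw [hF, hw, ← Finset.sum_add_distrib, Finset.sum_div]
    refine Finset.sum_congr rfl fun g _ => by ring
  rcases hF0.eq_or_lt with hFz | hFpos
  · -- `f = 0`
    have hz : ∀ g, f g = 0 := by
      intro g
      have h1 := (Finset.sum_eq_zero_iff_of_nonneg (fun g _ => sq_nonneg (f g))).1 hFz.symm g
        (Finset.mem_univ g)
      exact pow_eq_zero_iff (two_ne_zero) |>.1 h1
    have : w = 0 := by rw [hw]; exact Finset.sum_eq_zero fun g _ => by rw [hz, zero_mul]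
    rw [this, ← hFz]; simp
  by_cases haneg : (F + w) / 2 < 0
  · nlinarith
  push Not at haneg
  have hNpos : 0 < N := by
    rw [Nat.pos_iff_ne_zero]
    intro h0
    rw [hN, Finset.card_eq_zero, Finset.filter_eq_empty_iff] at h0
    have : F = 0 := by
      rw [hF]
      refine Finset.sum_eq_zero fun g _ => ?_
      have := h0 (Finset.mem_univ g)
      push Not at this
      rw [this]; ring
    exact hFpos.ne' this
  have hNR : (1 : ℝ) ≤ N := by exact_mod_cast hNpos
  have hR0 : (1 : ℝ) ≤ R := by exact_mod_cast hR1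
  set Λ : ℝ := R * Real.log n with hΛ
  have hΛ1 : 1 ≤ Λ := by rw [hΛ]; nlinarith
  -- the number of steps
  set t₀ : ℕ := ⌈4 * Λ / ε⌉₊ with ht₀
  have ht₀1 : 1 ≤ t₀ := Nat.one_le_iff_ne_zero.2 (by
    rw [ht₀]; exact (Nat.ceil_pos.2 (by positivity)).ne')
  obtain ⟨s, hs1, hs2⟩ := exists_pow_two ht₀1
  set T : ℕ := 2 ^ s with hT
  have hTl : 4 * Λ / ε ≤ T := (Nat.le_ceil _).trans (by exact_mod_cast hs1)
  have hTu : (T : ℝ) ≤ 10 * Λ / ε := by
    have h1 : (T : ℝ) ≤ 2 * t₀ := by exact_mod_cast hs2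
    have h2 : (t₀ : ℝ) < 4 * Λ / ε + 1 := Nat.ceil_lt_add_one (by positivity)
    have h3 : (2 : ℝ) ≤ 2 * Λ / ε := by
      rw [le_div_iff₀ hε]; nlinarith
    have h4 : 10 * Λ / ε = 2 * (4 * Λ / ε) + 2 * Λ / ε := by ring
    linarith
  have hTpos : (0 : ℝ) < T := lt_of_lt_of_le (by positivity) hTl
  -- the point masses
  have hnpos : (0 : ℝ) < n := by
    have : 0 < n := by omega
    exact_mod_cast this
  have hdesc : Real.exp (Λ / 2) ≤ (n.descFactorial R : ℝ) := by
    have h1 : (n + 1 - R) ^ R ≤ n.descFactorial R := Nat.pow_sub_le_descFactorial n R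
    have h2 : ((n : ℝ) / 2) ^ R ≤ ((n + 1 - R : ℕ) : ℝ) ^ R := by
      refine pow_le_pow_left₀ (by positivity) ?_ R
      rw [Nat.cast_sub (by omega)]
      push_cast
      have : (2 * R : ℝ) ≤ n := by exact_mod_cast hR
      linarith
    have h3 : Real.exp (Λ / 2) ≤ ((n : ℝ) / 2) ^ R := by
      have h4 : Real.exp (Λ / 2) = (Real.exp (Real.log n / 2)) ^ R := by
        rw [← Real.exp_nat_mul]
        congr 1
        rw [hΛ]; ring
      rw [h4]
      refine pow_le_pow_left₀ (Real.exp_pos _).le ?_ R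
      have h5 : Real.exp (Real.log n / 2) = √n := by
        rw [Real.sqrt_eq_rpow, Real.rpow_def_of_pos hnpos]
        congr 1
        ring
      rw [h5, Real.sqrt_le_left (by positivity)]
      have h6 : (4 : ℝ) ≤ n := by exact_mod_cast hn
      nlinarith
    refine h3.trans (h2.trans ?_)
    exact_mod_cast h1
  have hdpos : (0 : ℝ) < (n.descFactorial R : ℝ) := lt_of_lt_of_le (Real.exp_pos _) hdesc
  have hpow : (1 - ε / 2) ^ T ≤ Real.exp (-(Λ / 2)) := by
    have h1 : (1 - ε / 2) ≤ Real.exp (-(ε / 2)) := by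
      have := Real.add_one_le_exp (-(ε / 2))
      linarith
    calc (1 - ε / 2) ^ T ≤ (Real.exp (-(ε / 2))) ^ T :=
          pow_le_pow_left₀ (by linarith) h1 T
      _ = Real.exp (-(ε / 2 * T)) := by
          rw [← Real.exp_nat_mul]
          congr 1
          ring
      _ ≤ Real.exp (-(Λ / 2)) := by
          refine Real.exp_le_exp.2 (neg_le_neg ?_)
          have h2 : ε / 2 * (4 * Λ / ε) ≤ ε / 2 * T :=
            mul_le_mul_of_nonneg_left hTl (by linarith)
          have h3 : ε / 2 * (4 * Λ / ε) = 2 * Λ := by field_simp; ring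
          linarith
  set M : ℝ := 2 * Real.exp (-(Λ / 2)) with hM
  have hmass : ∀ g, lazyLaw z T g ≤ M := by
    intro g
    refine (point_mass hk (by omega) z hε hε1 hgap g).trans ?_
    have h1 : 1 / (n.descFactorial R : ℝ) ≤ Real.exp (-(Λ / 2)) := by
      rw [Real.exp_neg, ← one_div]
      exact one_div_le_one_div_of_le (Real.exp_pos _) hdesc
    rw [hM]; linarith
  have hM0 : 0 ≤ M := by rw [hM]; positivity
  have hmom := moment_small hlzw hk T z f hmass hM0
  rw [← hN, ← hF] at hmom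
  have hpw := moment_pow z s f (by rw [ha]; exact haneg)
  rw [ha, ← hF, ← hT] at hpw
  -- `(a / F) ^ T ≤ M N`
  set a : ℝ := (F + w) / 2 with hadef
  have h1 : a ^ T ≤ F ^ T * (M * N) := by
    have hT1 : 1 ≤ T := Nat.one_le_two_pow
    calc a ^ T ≤ F ^ (T - 1) * ∑ g, f g * (lwalk z)^[T] f g := hpw
      _ ≤ F ^ (T - 1) * (M * N * F) := mul_le_mul_of_nonneg_left hmom (pow_nonneg hF0 _)
      _ = F ^ (T - 1 + 1) * (M * N) := by rw [pow_succ]; ring
      _ = F ^ T * (M * N) := by rw [Nat.sub_add_cancel hT1]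
  have h2 : M * N ≤ Real.exp (-(Λ / 4)) := by
    have h3 : (2 * N : ℝ) ≤ Real.exp (Λ / 4) := by
      have h4 : Real.log (2 * N) ≤ Λ / 4 := by linarith
      calc (2 * N : ℝ) = Real.exp (Real.log (2 * N)) := (Real.exp_log (by positivity)).symm
        _ ≤ _ := Real.exp_le_exp.2 h4
    calc M * N = Real.exp (-(Λ / 2)) * (2 * N) := by rw [hM]; ring
      _ ≤ Real.exp (-(Λ / 2)) * Real.exp (Λ / 4) :=
          mul_le_mul_of_nonneg_left h3 (Real.exp_pos _).le
      _ = Real.exp (-(Λ / 4)) := by rw [← Real.exp_add]; congr 1; ring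
  have h3 : a ≤ F * Real.exp (-(ε / 40)) := by
    have h4 : a ^ T ≤ (F * Real.exp (-(ε / 40))) ^ T := by
      rw [mul_pow, ← Real.exp_nat_mul]
      refine h1.trans (mul_le_mul_of_nonneg_left (h2.trans ?_) (pow_nonneg hF0 _))
      refine Real.exp_le_exp.2 ?_
      have h5 : (T : ℝ) * (ε / 40) ≤ 10 * Λ / ε * (ε / 40) :=
        mul_le_mul_of_nonneg_right hTu (by positivity)
      have h6 : 10 * Λ / ε * (ε / 40) = Λ / 4 := by field_simp; ring
      nlinarith
    exact le_of_pow_le_pow_left₀ (by rw [hT]; positivity) (by positivity) h4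
  have h4 := exp_bound (x := ε / 40) (by positivity) (by linarith)
  have h5 : F * Real.exp (-(ε / 40)) ≤ F * (1 - ε / 40 / 2) := mul_le_mul_of_nonneg_left h4 hF0
  have h6 : w = 2 * a - F := by rw [hadef]; ring
  rw [h6]
  nlinarith

end Pool.Agent.Helper6.GP
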